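import Pool.Agent.BVU.Ext

/-!
# BVU module Ax1: foundation, pairing, union, separation, power set with truth values

`found_bv`: let `c` be the complement of the right side.  By induction on `y` (`BSet.rec`) `c ⊓ bmem y x = ⊥`: since
`c ⊓ bmem y x ≤ (⨅ z, bmem z y ⇨ (bmem z x)ᶜ)ᶜ = ⨆ z, bmem z y ⊓ bmem z x = ⨆ a : y.ty, y.vl a ⊓ bmem (y.fn a) x` (`iSup_bmem`) and
`c ⊓ bmem (y.fn a) x = ⊥` by the induction hypothesis.
`pair_bv`: `z := mk Bool (fun i => cond i x y) (fun _ => ⊤)`.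
`union_bv`: `z := mk (Σ a : x.ty, (x.fn a).ty) (fun e => (x.fn e.1).fn e.2) (fun e => x.vl e.1 ⊓ (x.fn e.1).vl e.2)`; the right side is
`⨆ a : x.ty, x.vl a ⊓ bmem w (x.fn a)` by `iSup_bmem`.
`sep_bv`: `z := mk x.ty x.fn (fun a => x.vl a ⊓ f (x.fn a))`; `beq w (x.fn a) ⊓ f (x.fn a) = beq w (x.fn a) ⊓ f w`.
`power_bv`: `z := mk (x.ty → B) (fun g => mk x.ty x.fn (fun a => g a ⊓ x.vl a)) (fun _ => ⊤)`.  `≤`: each member `m_g` satisfies
`bmem u m_g ≤ bmem u x`, and `beq w m_g ⊓ bmem u w ≤ bmem u m_g`.  `≥`: for given `w` take `g a := bmem (x.fn a) w`; then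
`(⨅ u, bmem u w ⇨ bmem u x) ≤ beq w m_g` by `beq_ext`: `bmem u w ⊓ bmem u x = ⨆ a, x.vl a ⊓ beq u (x.fn a) ⊓ bmem u w` and
`beq u (x.fn a) ⊓ bmem u w ≤ g a`, so this is `≤ bmem u m_g`; conversely `g a ⊓ x.vl a ⊓ beq u (x.fn a) ≤ bmem u w`.
-/

set_option autoImplicit false

namespace Pool.Agent.BVU

open BSet

variable {B : Type} [CompleteBooleanAlgebra B]

private theorem inf_bot_of_le {a b c : B} (h : a ⊓ b ≤ c) (hc : a ⊓ c ≤ ⊥) : a ⊓ b = ⊥ :=
  le_bot_iff.1 ((le_inf inf_le_left h).trans hc)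

theorem found_bv (x : BSet B) :
    (⨆ y, bmem y x) ≤ ⨆ y, bmem y x ⊓ ⨅ z, (bmem z y ⇨ (bmem z x)ᶜ) := by
  set R := ⨆ y, bmem y x ⊓ ⨅ z, (bmem z y ⇨ (bmem z x)ᶜ) with hR
  have key : ∀ y, Rᶜ ⊓ bmem y x = ⊥ := by
    intro y
    induction y with
    | mk α A v ih =>
      set y : BSet B := mk α A v with hy
      have h1 : bmem y x ⊓ (⨅ z, (bmem z y ⇨ (bmem z x)ᶜ)) ≤ R :=
        le_iSup (fun y => bmem y x ⊓ ⨅ z, (bmem z y ⇨ (bmem z x)ᶜ)) y
      have h2 : (⨅ z, (bmem z y ⇨ (bmem z x)ᶜ)) = (⨆ a, v a ⊓ bmem (A a) x)ᶜ := by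
        rw [compl_iSup]
        have h3 := iInf_bmem (f := fun z => (bmem z x)ᶜ) (ExtB.mem_left x).compl y
        rw [h3]
        refine iInf_congr fun a => ?_
        rw [compl_inf, himp_eq, sup_comm]
        rfl
      have h4 : Rᶜ ⊓ bmem y x ≤ ⨆ a, v a ⊓ bmem (A a) x := by
        rw [h2] at h1
        have h5 : Rᶜ ⊓ bmem y x ⊓ (⨆ a, v a ⊓ bmem (A a) x)ᶜ ≤ ⊥ := by
          calc Rᶜ ⊓ bmem y x ⊓ (⨆ a, v a ⊓ bmem (A a) x)ᶜ
              = Rᶜ ⊓ (bmem y x ⊓ (⨆ a, v a ⊓ bmem (A a) x)ᶜ) := by rw [inf_assoc]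
            _ ≤ Rᶜ ⊓ R := inf_le_inf_left _ h1
            _ ≤ ⊥ := by rw [compl_inf_self]
        rwa [le_bot_iff, ← disjoint_iff, disjoint_compl_right_iff] at h5
      refine inf_bot_of_le h4 ?_
      rw [inf_iSup_eq]
      refine iSup_le fun a => ?_
      calc Rᶜ ⊓ (v a ⊓ bmem (A a) x) ≤ Rᶜ ⊓ bmem (A a) x := inf_le_inf_left _ inf_le_right
        _ ≤ ⊥ := (ih a).le
  refine iSup_le fun y => ?_
  have := key y
  rw [← disjoint_iff, disjoint_compl_left_iff] at this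
  exact this

theorem pair_bv (x y : BSet B) : ∃ z, ∀ w, bmem w z = beq w x ⊔ beq w y := by
  refine ⟨mk Bool (fun i => cond i x y) (fun _ => ⊤), fun w => ?_⟩
  show (⨆ a : Bool, (⊤ : B) ⊓ beq w (cond a x y)) = _
  rw [iSup_bool_eq]
  simp

theorem union_bv (x : BSet B) : ∃ z, ∀ w, bmem w z = ⨆ y, bmem y x ⊓ bmem w y := by
  refine ⟨mk (Σ a : x.ty, (x.fn a).ty) (fun e => (x.fn e.1).fn e.2)
    (fun e => x.vl e.1 ⊓ (x.fn e.1).vl e.2), fun w => ?_⟩
  rw [iSup_bmem (ExtB.mem_right w) x]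
  show (⨆ e : (Σ a : x.ty, (x.fn a).ty), (x.vl e.1 ⊓ (x.fn e.1).vl e.2) ⊓ beq w ((x.fn e.1).fn e.2)) = _
  rw [iSup_sigma]
  refine iSup_congr fun a => ?_
  show _ = x.vl a ⊓ ⨆ b : (x.fn a).ty, (x.fn a).vl b ⊓ beq w ((x.fn a).fn b)
  rw [inf_iSup_eq]
  exact iSup_congr fun b => inf_assoc _ _ _

theorem sep_bv {f : BSet B → B} (hf : ExtB f) (x : BSet B) : ∃ z, ∀ w, bmem w z = bmem w x ⊓ f w := by
  refine ⟨mk x.ty x.fn (fun a => x.vl a ⊓ f (x.fn a)), fun w => ?_⟩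
  show (⨆ a : x.ty, (x.vl a ⊓ f (x.fn a)) ⊓ beq w (x.fn a)) = (⨆ a : x.ty, x.vl a ⊓ beq w (x.fn a)) ⊓ f w
  rw [iSup_inf_eq]
  refine iSup_congr fun a => ?_
  apply le_antisymm
  · refine le_inf (le_inf (inf_le_left.trans inf_le_left) inf_le_right) ?_
    have h := hf (x.fn a) w
    rw [beq_comm] at h
    exact (le_inf inf_le_right (inf_le_left.trans inf_le_right)).trans h
  · refine le_inf (le_inf (inf_le_left.trans inf_le_left) ?_) (inf_le_left.trans inf_le_right)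
    exact (le_inf (inf_le_left.trans inf_le_right) inf_le_right).trans (hf w (x.fn a))

theorem power_bv (x : BSet B) : ∃ z, ∀ w, bmem w z = ⨅ u, (bmem u w ⇨ bmem u x) := by
  set m : (x.ty → B) → BSet B := fun g => mk x.ty x.fn (fun a => g a ⊓ x.vl a) with hm
  have hmem : ∀ g u, bmem u (m g) = ⨆ a : x.ty, (g a ⊓ x.vl a) ⊓ beq u (x.fn a) := fun g u => rfl
  refine ⟨mk (x.ty → B) m (fun _ => ⊤), fun w => ?_⟩
  show (⨆ g : x.ty → B, (⊤ : B) ⊓ beq w (m g)) = _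
  apply le_antisymm
  · refine iSup_le fun g => le_iInf fun u => ?_
    rw [top_inf_eq, le_himp_iff]
    refine (bmem_congr_right w (m g) u).trans ?_
    rw [hmem]
    refine iSup_le fun a => ?_
    refine le_trans (inf_le_inf_right _ inf_le_right) ?_
    exact le_iSup (fun a : x.ty => x.vl a ⊓ beq u (x.fn a)) a
  · refine le_trans ?_ (le_iSup (fun g => (⊤ : B) ⊓ beq w (m g)) (fun a => bmem (x.fn a) w))
    rw [top_inf_eq, beq_ext]
    refine le_inf (le_iInf fun u => ?_) (le_iInf fun u => ?_)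
    · rw [le_himp_iff]
      have h1 : (⨅ u, (bmem u w ⇨ bmem u x)) ⊓ bmem u w ≤ bmem u x := by
        refine (inf_le_inf_right _ (iInf_le _ u)).trans ?_
        exact himp_inf_le
      have h2 : (⨅ u, (bmem u w ⇨ bmem u x)) ⊓ bmem u w ≤ bmem u w ⊓ bmem u x := le_inf inf_le_right h1
      refine h2.trans ?_
      rw [hmem]
      show bmem u w ⊓ (⨆ a : x.ty, x.vl a ⊓ beq u (x.fn a)) ≤ _
      rw [inf_iSup_eq]
      refine iSup_mono fun a => ?_
      refine le_inf (le_inf ?_ (inf_le_right.trans inf_le_left)) (inf_le_right.trans inf_le_right)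
      exact (le_inf (inf_le_right.trans inf_le_right) inf_le_left).trans (bmem_congr_left u (x.fn a) w)
    · rw [le_himp_iff]
      refine inf_le_right.trans ?_
      rw [hmem]
      refine iSup_le fun a => ?_
      have h := bmem_congr_left (x.fn a) u w
      rw [beq_comm] at h
      exact (le_inf inf_le_right (inf_le_left.trans inf_le_left)).trans h

end Pool.Agent.BVU
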