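import Pool.Agent.BVU.Mix
import Pool.Agent.BVU.Ax1

/-!
# BVU module Ax2: replacement with truth values

`repl_bv`: by the maximum principle choose for `i : x.ty` some `b i` with `f (x.fn i) (b i) = ⨆ b, f (x.fn i) b`, let
`y := mk x.ty b (fun _ => ⊤)` and (`sep_bv`) `z` with `bmem b z = bmem b y ⊓ ⨆ a, bmem a x ⊓ f a b`.  The hypothesis value is
`u := ⨅ a, bmem a x ⇨ ⨅ b, ⨅ b', (f a b ⊓ f a b' ⇨ beq b b')` (uniqueness).
Claim: `u ⊓ bmem a x ⊓ f a b ≤ bmem b y`: `bmem a x = ⨆ i, x.vl i ⊓ beq a (x.fn i)`; `beq a (x.fn i) ⊓ f a b ≤ f (x.fn i) b ≤ f (x.fn i) (b i)`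
(the last by the choice of `b i`), and `x.vl i ≤ bmem (x.fn i) x`, so `u` gives `beq b (b i) ≤ bmem b y`.
Hence `u ⊓ (⨆ a, bmem a x ⊓ f a b) ≤ bmem b z` and `bmem b z ≤ ⨆ a, bmem a x ⊓ f a b`.
-/

set_option autoImplicit false

namespace Pool.Agent.BVU

open BSet

variable {B : Type} [CompleteBooleanAlgebra B]

theorem repl_bv {f : BSet B → BSet B → B} (hf : ∀ b, ExtB (fun a => f a b)) (hf' : ∀ a, ExtB (fun b => f a b))
    (x : BSet B) : ∃ z, ∀ b, bmem b z ≤ (⨆ a, bmem a x ⊓ f a b) ∧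
      (⨅ a, bmem a x ⇨ ⨅ b, ⨅ b', (f a b ⊓ f a b' ⇨ beq b b')) ⊓ (⨆ a, bmem a x ⊓ f a b) ≤ bmem b z := by
  choose c hc using fun i : x.ty => max_principle (hf' (x.fn i))
  have hg : ExtB (fun b => ⨆ a, bmem a x ⊓ f a b) :=
    ExtB.iSup fun a => ExtB.inf (ExtB.const _) (hf' a)
  obtain ⟨z, hz⟩ := sep_bv hg (BSet.mk x.ty c (fun _ => ⊤))
  refine ⟨z, fun b => ⟨?_, ?_⟩⟩
  · rw [hz]
    exact inf_le_right
  · rw [hz]
    refine le_inf ?_ inf_le_right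
    rw [iSup_bmem (hf b) x, inf_iSup_eq]
    refine iSup_le fun i => ?_
    have h1 : (⨅ a, bmem a x ⇨ ⨅ b, ⨅ b', (f a b ⊓ f a b' ⇨ beq b b')) ⊓ x.vl i ≤
        f (x.fn i) b ⊓ f (x.fn i) (c i) ⇨ beq b (c i) :=
      calc (⨅ a, bmem a x ⇨ ⨅ b, ⨅ b', (f a b ⊓ f a b' ⇨ beq b b')) ⊓ x.vl i
          ≤ (bmem (x.fn i) x ⇨ ⨅ b, ⨅ b', (f (x.fn i) b ⊓ f (x.fn i) b' ⇨ beq b b')) ⊓
              bmem (x.fn i) x := inf_le_inf (iInf_le _ (x.fn i)) (vl_le x i)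
        _ ≤ ⨅ b, ⨅ b', (f (x.fn i) b ⊓ f (x.fn i) b' ⇨ beq b b') := by
            rw [himp_inf_self]
            exact inf_le_left
        _ ≤ f (x.fn i) b ⊓ f (x.fn i) (c i) ⇨ beq b (c i) :=
            (iInf_le _ b).trans (iInf_le _ (c i))
    have h2 : f (x.fn i) b ≤ f (x.fn i) b ⊓ f (x.fn i) (c i) :=
      le_inf le_rfl (by rw [hc i]; exact le_iSup (fun y => f (x.fn i) y) b)
    have h3 : (⨅ a, bmem a x ⇨ ⨅ b, ⨅ b', (f a b ⊓ f a b' ⇨ beq b b')) ⊓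
        (x.vl i ⊓ f (x.fn i) b) ≤ beq b (c i) := by
      rw [← inf_assoc]
      exact (inf_le_inf h1 h2).trans (by rw [himp_inf_self]; exact inf_le_left)
    refine h3.trans ?_
    unfold bmem
    exact le_iSup_of_le i (le_inf le_top le_rfl)

end Pool.Agent.BVU
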