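import Pool.Agent.BVU.Ax1

/-!
# BVU module Ax3: choice with truth values

Let `S := Σ a : x.ty, (x.fn a).ty`, `z e := (x.fn e.1).fn e.2` for `e : S`, and take a well-order `<` on `S`
(`exists_wellOrder`/`WellOrderingRel`).  Put
`c := mk S z (fun e => ⨆ a : x.ty, x.vl a ⊓ bmem (z e) (x.fn a) ⊓ ⨅ e' : S, ⨅ (_ : e' < e), (bmem (z e') (x.fn a))ᶜ)`.

`choice_ex`: for every `y`: `bmem y x ⊓ (⨆ z, bmem z y) ≤ ⨆ z, bmem z y ⊓ bmem z c`.  `bmem y x = ⨆ a, x.vl a ⊓ beq y (x.fn a)`; on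
`x.vl a ⊓ beq y (x.fn a)`: `⨆ z, bmem z y ≤ ⨆ z, bmem z (x.fn a) ≤ ⨆ e : S, bmem (z e) (x.fn a)` (the elements `e = (a, j)` suffice), and by the
well-order this is `⨆ e, bmem (z e) (x.fn a) ⊓ ⨅ e' < e, (bmem (z e') (x.fn a))ᶜ` (`iSup_least` below), each term of which (met with
`x.vl a`) is `≤ bmem (z e) c` by `vl_le`, and `beq y (x.fn a) ⊓ bmem (z e) (x.fn a) ≤ bmem (z e) y`.

`choice_uniq`: with the value of pairwise disjointness
`u := ⨅ y, ⨅ y', (bmem y x ⊓ bmem y' x ⊓ (⨆ z, bmem z y ⊓ bmem z y') ⇨ beq y y')`: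
`u ⊓ bmem y x ⊓ (bmem z y ⊓ bmem z c) ⊓ (bmem z' y ⊓ bmem z' c) ≤ beq z z'`.  Expand `bmem z c = ⨆ e, (⨆ a, …) ⊓ beq z (z e)` and
`bmem z' c = ⨆ e', (⨆ a', …) ⊓ beq z' (z e')`.  Fix `e, a, e', a'`.  Then `z e` is in `y` and in `x.fn a`, both in `x`, so by `u`
`beq y (x.fn a)`, similarly `beq y (x.fn a')`, hence `beq (x.fn a) (x.fn a')`.  If `e = e'` then `beq z (z e) ⊓ beq z' (z e) ≤ beq z z'`.  If `e' < e`
then `bmem (z e') (x.fn a')` and the equality give `bmem (z e') (x.fn a)`, which contradicts the factor `(bmem (z e') (x.fn a))ᶜ`; same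
for `e < e'`.
-/

set_option autoImplicit false

namespace Pool.Agent.BVU

open BSet

variable {B : Type} [CompleteBooleanAlgebra B]

theorem iSup_least {S : Type} (r : S → S → Prop) (hr : WellFounded r) (b : S → B) :
    (⨆ e, b e) ≤ ⨆ e, b e ⊓ ⨅ e', ⨅ (_ : r e' e), (b e')ᶜ := by
  refine iSup_le fun e => ?_
  induction e using hr.induction with
  | _ e ih =>
    have h1 : b e = b e ⊓ (⨅ e', ⨅ (_ : r e' e), (b e')ᶜ) ⊔ b e ⊓ (⨅ e', ⨅ (_ : r e' e), (b e')ᶜ)ᶜ := by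
      rw [← inf_sup_left, sup_compl_eq_top, inf_top_eq]
    rw [h1]
    refine sup_le ?_ (inf_le_right.trans ?_)
    · exact le_iSup (fun e => b e ⊓ ⨅ e', ⨅ (_ : r e' e), (b e')ᶜ) e
    · rw [compl_iInf]
      refine iSup_le fun e' => ?_
      rw [compl_iInf]
      refine iSup_le fun h => ?_
      rw [compl_compl]
      exact ih e' h

private theorem AX3_mem (x t : BSet B) : bmem t x ≤ ⨆ j : x.ty, bmem (x.fn j) x := by
  rw [bmem]
  exact iSup_mono fun j => inf_le_left.trans (vl_le x j)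

private theorem AX3_eq {Q : B} {x y t s s' : BSet B}
    (hu : Q ≤ ⨅ y, ⨅ y', (bmem y x ⊓ bmem y' x ⊓ (⨆ z, bmem z y ⊓ bmem z y') ⇨ beq y y'))
    (h1 : Q ≤ bmem y x) (h2 : Q ≤ bmem t y) (h3 : Q ≤ bmem s' x) (h4 : Q ≤ beq t s)
    (h5 : Q ≤ bmem s s') : Q ≤ beq y s' := by
  have h6 := hu.trans ((iInf_le _ y).trans (iInf_le _ s'))
  rw [le_himp_iff] at h6
  refine le_trans (le_inf le_rfl (le_inf (le_inf h1 h3) ?_)) h6
  refine le_trans (le_inf ?_ h5) (le_iSup (fun z => bmem z y ⊓ bmem z s') s)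
  exact (le_inf h4 h2).trans (bmem_congr_left t s y)

private theorem AX3_key {S : Type} (r : S → S → Prop) (htri : ∀ e e', r e e' ∨ e = e' ∨ r e' e)
    (x : BSet B) (z : S → BSet B) (y t t' : BSet B) (e e' : S) (a a' : x.ty) {Q : B}
    (hu : Q ≤ ⨅ y, ⨅ y', (bmem y x ⊓ bmem y' x ⊓ (⨆ z, bmem z y ⊓ bmem z y') ⇨ beq y y'))
    (h1 : Q ≤ bmem y x) (h2 : Q ≤ bmem t y) (h2' : Q ≤ bmem t' y)
    (h3 : Q ≤ beq t (z e)) (h3' : Q ≤ beq t' (z e'))
    (h4 : Q ≤ x.vl a ⊓ bmem (z e) (x.fn a) ⊓ ⨅ e', ⨅ (_ : r e' e), (bmem (z e') (x.fn a))ᶜ)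
    (h4' : Q ≤ x.vl a' ⊓ bmem (z e') (x.fn a') ⊓ ⨅ e'', ⨅ (_ : r e'' e'), (bmem (z e'') (x.fn a'))ᶜ) :
    Q ≤ beq t t' := by
  have ha : Q ≤ bmem (x.fn a) x := (h4.trans (inf_le_left.trans inf_le_left)).trans (vl_le x a)
  have ha' : Q ≤ bmem (x.fn a') x := (h4'.trans (inf_le_left.trans inf_le_left)).trans (vl_le x a')
  have hb : Q ≤ bmem (z e) (x.fn a) := h4.trans (inf_le_left.trans inf_le_right)
  have hb' : Q ≤ bmem (z e') (x.fn a') := h4'.trans (inf_le_left.trans inf_le_right)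
  have hc : Q ≤ beq y (x.fn a) := AX3_eq hu h1 h2 ha h3 hb
  have hc' : Q ≤ beq y (x.fn a') := AX3_eq hu h1 h2' ha' h3' hb'
  have hd : Q ≤ beq (x.fn a) (x.fn a') :=
    (le_inf (hc.trans (beq_comm y (x.fn a)).le) hc').trans (beq_trans _ _ _)
  have hd' : Q ≤ beq (x.fn a') (x.fn a) := hd.trans (beq_comm _ _).le
  rcases htri e e' with h | h | h
  · have k1 : Q ≤ bmem (z e) (x.fn a') := (le_inf hd hb).trans (bmem_congr_right _ _ _)
    have k2 : Q ≤ (bmem (z e) (x.fn a'))ᶜ := h4'.trans (inf_le_right.trans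
      ((iInf_le _ e).trans (iInf_le _ h)))
    exact ((le_inf k1 k2).trans (inf_compl_self _).le).trans bot_le
  · subst h
    exact (le_inf h3 (h3'.trans (beq_comm t' (z e)).le)).trans (beq_trans _ _ _)
  · have k1 : Q ≤ bmem (z e') (x.fn a) := (le_inf hd' hb').trans (bmem_congr_right _ _ _)
    have k2 : Q ≤ (bmem (z e') (x.fn a))ᶜ := h4.trans (inf_le_right.trans
      ((iInf_le _ e').trans (iInf_le _ h)))
    exact ((le_inf k1 k2).trans (inf_compl_self _).le).trans bot_le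

theorem choice_bv (x : BSet B) : ∃ c,
    (∀ y, bmem y x ⊓ (⨆ z, bmem z y) ≤ ⨆ z, bmem z y ⊓ bmem z c) ∧
    (∀ y z z', (⨅ y, ⨅ y', (bmem y x ⊓ bmem y' x ⊓ (⨆ z, bmem z y ⊓ bmem z y') ⇨ beq y y')) ⊓ bmem y x ⊓
      (bmem z y ⊓ bmem z c) ⊓ (bmem z' y ⊓ bmem z' c) ≤ beq z z') := by
  classical
  let S : Type := Σ a : x.ty, (x.fn a).ty
  let z : S → BSet B := fun e => (x.fn e.1).fn e.2
  let r : S → S → Prop := WellOrderingRel
  have hwf : WellFounded r := (WellOrderingRel.isWellOrder (α := S)).toIsWellFounded.wf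
  have htri : ∀ e e', r e e' ∨ e = e' ∨ r e' e := fun e e' =>
    trichotomous_of (WellOrderingRel (α := S)) e e'
  let w : S → x.ty → B := fun e a =>
    x.vl a ⊓ bmem (z e) (x.fn a) ⊓ ⨅ e', ⨅ (_ : r e' e), (bmem (z e') (x.fn a))ᶜ
  refine ⟨BSet.mk S z (fun e => ⨆ a, w e a), fun y => ?_, fun y t t' => ?_⟩
  · have h0 : bmem y x = ⨆ a : x.ty, x.vl a ⊓ beq y (x.fn a) := rfl
    rw [h0, iSup_inf_eq]
    refine iSup_le fun a => ?_
    have h1 : beq y (x.fn a) ⊓ (⨆ t, bmem t y) ≤ ⨆ e, bmem (z e) (x.fn a) := by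
      rw [inf_iSup_eq]
      refine iSup_le fun t => ?_
      refine (bmem_congr_right y (x.fn a) t).trans ((AX3_mem (x.fn a) t).trans ?_)
      exact iSup_le fun j => le_iSup (fun e : S => bmem (z e) (x.fn a)) ⟨a, j⟩
    have h2 := h1.trans (iSup_least r hwf _)
    have h3 : x.vl a ⊓ beq y (x.fn a) ⊓ (⨆ t, bmem t y) ≤ (x.vl a ⊓ beq y (x.fn a)) ⊓
        ⨆ e, bmem (z e) (x.fn a) ⊓ ⨅ e', ⨅ (_ : r e' e), (bmem (z e') (x.fn a))ᶜ := by
      refine le_inf inf_le_left (le_trans ?_ h2)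
      exact inf_le_inf_right _ inf_le_right
    refine h3.trans ?_
    rw [inf_iSup_eq]
    refine iSup_le fun e => ?_
    refine le_trans (le_inf ?_ ?_) (le_iSup
      (fun t => bmem t y ⊓ bmem t (BSet.mk S z (fun e => ⨆ a, w e a))) (z e))
    · refine le_trans (le_inf ?_ ?_) (bmem_congr_right (x.fn a) y (z e))
      · exact (inf_le_left.trans inf_le_right).trans (beq_comm y (x.fn a)).le
      · exact inf_le_right.trans inf_le_left
    · refine le_trans ?_ (vl_le (BSet.mk S z (fun e => ⨆ a, w e a)) e)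
      refine le_trans ?_ (le_iSup (fun a => w e a) a)
      refine le_inf (le_inf ?_ ?_) ?_
      · exact inf_le_left.trans inf_le_left
      · exact inf_le_right.trans inf_le_left
      · exact inf_le_right.trans inf_le_right
  · have h0 : ∀ t, bmem t (BSet.mk S z (fun e => ⨆ a, w e a)) = ⨆ e, ⨆ a, w e a ⊓ beq t (z e) := by
      intro t
      change (⨆ e, (⨆ a, w e a) ⊓ beq t (z e)) = _
      exact iSup_congr fun e => iSup_inf_eq _ _
    rw [h0 t, h0 t']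
    obtain ⟨u, hu⟩ : ∃ u, u = (⨅ y, ⨅ y', (bmem y x ⊓ bmem y' x ⊓ (⨆ z, bmem z y ⊓ bmem z y') ⇨
      beq y y')) := ⟨_, rfl⟩
    rw [← hu]
    simp only [inf_iSup_eq, iSup_inf_eq]
    refine iSup_le fun e' => iSup_le fun a' => iSup_le fun e => iSup_le fun a => ?_
    refine AX3_key r htri x z y t t' e e' a a' ?_ ?_ ?_ ?_ ?_ ?_ ?_ ?_
    · exact (inf_le_left.trans (inf_le_left.trans inf_le_left)).trans hu.le
    · exact inf_le_left.trans (inf_le_left.trans inf_le_right)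
    · exact inf_le_left.trans (inf_le_right.trans inf_le_left)
    · exact inf_le_right.trans inf_le_left
    · exact inf_le_left.trans (inf_le_right.trans (inf_le_right.trans inf_le_right))
    · exact inf_le_right.trans (inf_le_right.trans inf_le_right)
    · exact inf_le_left.trans (inf_le_right.trans (inf_le_right.trans inf_le_left))
    · exact inf_le_right.trans (inf_le_right.trans inf_le_left)

end Pool.Agent.BVU
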