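import Pool.Agent.BVU.Defs

/-!
# BVU module Beq: equality and membership of Boolean-valued sets

`beq_mk` is `rfl`.  `beq_refl`: induction on `x` (`BSet.rec`): each term `v a ⇨ ⨆ a', v a' ⊓ beq (A a) (A a')` is `⊤` (take `a' = a`).
`beq_comm`: induction on `x`, for all `y`.
`beq_trans`: induction on `x`, for all `y z`; write `x = mk α A v`, `y = mk β D w`, `z = mk γ C u`.  First half: for `a : α`:
`v a ⊓ beq x y ≤ ⨆ b, w b ⊓ beq (A a) (D b)` and `w b ⊓ beq y z ≤ ⨆ c, u c ⊓ beq (D b) (C c)`, then the induction hypothesis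
`beq (A a) (D b) ⊓ beq (D b) (C c) ≤ beq (A a) (C c)` (distributivity `inf_iSup_eq`, `iSup_inf_eq`, `le_himp_iff`).  Second half:
for `c : γ`: `u c ⊓ beq y z ≤ ⨆ b, w b ⊓ beq (D b) (C c)`, `w b ⊓ beq x y ≤ ⨆ a, v a ⊓ beq (A a) (D b)`, same induction hypothesis.
`bmem_congr_left`: from `beq_trans`.  `vl_le`: take the index itself, `beq_refl`.
`beq_def`: unfold `beq` (cases on `x`, `y`), use `beq_comm` in the second half.
`bmem_congr_right`: `bmem z x = ⨆ a, x.vl a ⊓ beq z (x.fn a)`, and `x.vl a ⊓ beq x y ≤ bmem (x.fn a) y` by `beq_def`, then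
`bmem_congr_left`.
`beq_ext`: `≤` by `bmem_congr_right`; `≥` by `beq_def` and `vl_le`.
`bmem_self`: induction on `x`: `x.vl a ⊓ beq x (x.fn a) ≤ bmem (x.fn a) x ⊓ beq x (x.fn a) ≤ bmem (x.fn a) (x.fn a) = ⊥`.
-/

set_option autoImplicit false

namespace Pool.Agent.BVU

open BSet

variable {B : Type} [CompleteBooleanAlgebra B]

private theorem Beq_mk {α α' : Type} (A : α → BSet B) (v : α → B) (A' : α' → BSet B) (v' : α' → B) :
    beq (BSet.mk α A v) (BSet.mk α' A' v') = (⨅ a, v a ⇨ ⨆ a', v' a' ⊓ beq (A a) (A' a')) ⊓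
      (⨅ a', v' a' ⇨ ⨆ a, v a ⊓ beq (A a) (A' a')) := by
  rw [beq]

theorem beq_refl (x : BSet B) : beq x x = ⊤ := by
  induction x with
  | mk α A v ih =>
    rw [Beq_mk, eq_top_iff]
    refine le_inf (le_iInf fun a => ?_) (le_iInf fun a => ?_)
    · rw [le_himp_iff, top_inf_eq]
      exact le_trans (by rw [ih a, inf_top_eq]) (le_iSup (fun a' => v a' ⊓ beq (A a) (A a')) a)
    · rw [le_himp_iff, top_inf_eq]
      exact le_trans (by rw [ih a, inf_top_eq]) (le_iSup (fun a' => v a' ⊓ beq (A a') (A a)) a)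

theorem beq_comm (x y : BSet B) : beq x y = beq y x := by
  induction x generalizing y with
  | mk α A v ih =>
    cases y with
    | mk β D w =>
      rw [Beq_mk, Beq_mk, inf_comm]
      congr 1
      · refine iInf_congr fun b => ?_
        congr 1
        exact iSup_congr fun a => by rw [ih a]
      · refine iInf_congr fun a => ?_
        congr 1
        exact iSup_congr fun b => by rw [ih a]

private theorem Beq_l {α β : Type} (A : α → BSet B) (v : α → B) (D : β → BSet B) (w : β → B) (a : α) :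
    v a ⊓ beq (BSet.mk α A v) (BSet.mk β D w) ≤ ⨆ b, w b ⊓ beq (A a) (D b) := by
  rw [Beq_mk, inf_comm, ← le_himp_iff]
  exact le_trans inf_le_left (iInf_le _ a)

private theorem Beq_r {α β : Type} (A : α → BSet B) (v : α → B) (D : β → BSet B) (w : β → B) (b : β) :
    w b ⊓ beq (BSet.mk α A v) (BSet.mk β D w) ≤ ⨆ a, v a ⊓ beq (A a) (D b) := by
  rw [Beq_mk, inf_comm, ← le_himp_iff]
  exact le_trans inf_le_right (iInf_le _ b)

theorem beq_trans (x y z : BSet B) : beq x y ⊓ beq y z ≤ beq x z := by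
  induction x generalizing y z with
  | mk α A v ih =>
    cases y with
    | mk β D w =>
      cases z with
      | mk γ C u =>
        rw [Beq_mk A v C u]
        refine le_inf (le_iInf fun a => ?_) (le_iInf fun c => ?_)
        · rw [le_himp_iff]
          have h1 := Beq_l A v D w a
          calc beq (BSet.mk α A v) (BSet.mk β D w) ⊓ beq (BSet.mk β D w) (BSet.mk γ C u) ⊓ v a
              = (v a ⊓ beq (BSet.mk α A v) (BSet.mk β D w)) ⊓ beq (BSet.mk β D w) (BSet.mk γ C u) := by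
                ac_rfl
            _ ≤ (⨆ b, w b ⊓ beq (A a) (D b)) ⊓ beq (BSet.mk β D w) (BSet.mk γ C u) :=
                inf_le_inf_right _ h1
            _ = ⨆ b, (w b ⊓ beq (A a) (D b)) ⊓ beq (BSet.mk β D w) (BSet.mk γ C u) := iSup_inf_eq _ _
            _ ≤ ⨆ c, u c ⊓ beq (A a) (C c) := by
                refine iSup_le fun b => ?_
                calc (w b ⊓ beq (A a) (D b)) ⊓ beq (BSet.mk β D w) (BSet.mk γ C u)
                    = (w b ⊓ beq (BSet.mk β D w) (BSet.mk γ C u)) ⊓ beq (A a) (D b) := by ac_rfl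
                  _ ≤ (⨆ c, u c ⊓ beq (D b) (C c)) ⊓ beq (A a) (D b) :=
                      inf_le_inf_right _ (Beq_l D w C u b)
                  _ = ⨆ c, (u c ⊓ beq (D b) (C c)) ⊓ beq (A a) (D b) := iSup_inf_eq _ _
                  _ ≤ ⨆ c, u c ⊓ beq (A a) (C c) := by
                      refine iSup_mono fun c => ?_
                      calc (u c ⊓ beq (D b) (C c)) ⊓ beq (A a) (D b)
                          = u c ⊓ (beq (A a) (D b) ⊓ beq (D b) (C c)) := by ac_rfl
                        _ ≤ u c ⊓ beq (A a) (C c) := inf_le_inf_left _ (ih a _ _)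
        · rw [le_himp_iff]
          calc beq (BSet.mk α A v) (BSet.mk β D w) ⊓ beq (BSet.mk β D w) (BSet.mk γ C u) ⊓ u c
              = (u c ⊓ beq (BSet.mk β D w) (BSet.mk γ C u)) ⊓ beq (BSet.mk α A v) (BSet.mk β D w) := by
                ac_rfl
            _ ≤ (⨆ b, w b ⊓ beq (D b) (C c)) ⊓ beq (BSet.mk α A v) (BSet.mk β D w) :=
                inf_le_inf_right _ (Beq_r D w C u c)
            _ = ⨆ b, (w b ⊓ beq (D b) (C c)) ⊓ beq (BSet.mk α A v) (BSet.mk β D w) := iSup_inf_eq _ _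
            _ ≤ ⨆ a, v a ⊓ beq (A a) (C c) := by
                refine iSup_le fun b => ?_
                calc (w b ⊓ beq (D b) (C c)) ⊓ beq (BSet.mk α A v) (BSet.mk β D w)
                    = (w b ⊓ beq (BSet.mk α A v) (BSet.mk β D w)) ⊓ beq (D b) (C c) := by ac_rfl
                  _ ≤ (⨆ a, v a ⊓ beq (A a) (D b)) ⊓ beq (D b) (C c) :=
                      inf_le_inf_right _ (Beq_r A v D w b)
                  _ = ⨆ a, (v a ⊓ beq (A a) (D b)) ⊓ beq (D b) (C c) := iSup_inf_eq _ _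
                  _ ≤ ⨆ a, v a ⊓ beq (A a) (C c) := by
                      refine iSup_mono fun a => ?_
                      calc (v a ⊓ beq (A a) (D b)) ⊓ beq (D b) (C c)
                          = v a ⊓ (beq (A a) (D b) ⊓ beq (D b) (C c)) := by ac_rfl
                        _ ≤ v a ⊓ beq (A a) (C c) := inf_le_inf_left _ (ih a _ _)

theorem bmem_congr_left (x y z : BSet B) : beq x y ⊓ bmem x z ≤ bmem y z := by
  rw [bmem, bmem, inf_iSup_eq]
  refine iSup_mono fun a => ?_
  calc beq x y ⊓ (z.vl a ⊓ beq x (z.fn a)) = z.vl a ⊓ (beq y x ⊓ beq x (z.fn a)) := by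
        rw [beq_comm y x]; ac_rfl
    _ ≤ z.vl a ⊓ beq y (z.fn a) := inf_le_inf_left _ (beq_trans _ _ _)

theorem vl_le (y : BSet B) (a : y.ty) : y.vl a ≤ bmem (y.fn a) y := by
  rw [bmem]
  exact le_trans (by rw [beq_refl, inf_top_eq]) (le_iSup (fun b => y.vl b ⊓ beq (y.fn a) (y.fn b)) a)

theorem beq_def (x y : BSet B) :
    beq x y = (⨅ a : x.ty, x.vl a ⇨ bmem (x.fn a) y) ⊓ (⨅ a : y.ty, y.vl a ⇨ bmem (y.fn a) x) := by
  cases x with
  | mk α A v =>
    cases y with
    | mk β D w =>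
      rw [Beq_mk]
      congr 1
      refine iInf_congr fun b => ?_
      change w b ⇨ _ = w b ⇨ _
      congr 1
      rw [bmem]
      exact iSup_congr fun a => by
        change v a ⊓ _ = v a ⊓ beq (D b) (A a)
        rw [beq_comm]

theorem le_beq {c : B} {x y : BSet B} (h1 : ∀ a : x.ty, c ⊓ x.vl a ≤ bmem (x.fn a) y)
    (h2 : ∀ a : y.ty, c ⊓ y.vl a ≤ bmem (y.fn a) x) : c ≤ beq x y := by
  rw [beq_def]
  exact le_inf (le_iInf fun a => le_himp_iff.2 (h1 a)) (le_iInf fun a => le_himp_iff.2 (h2 a))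

theorem bmem_congr_right (x y z : BSet B) : beq x y ⊓ bmem z x ≤ bmem z y := by
  rw [bmem, inf_iSup_eq]
  refine iSup_le fun a => ?_
  have h : beq x y ⊓ x.vl a ≤ bmem (x.fn a) y := by
    rw [beq_def, ← le_himp_iff]
    exact le_trans inf_le_left (iInf_le _ a)
  calc beq x y ⊓ (x.vl a ⊓ beq z (x.fn a)) = beq (x.fn a) z ⊓ (beq x y ⊓ x.vl a) := by
        rw [beq_comm z]; ac_rfl
    _ ≤ beq (x.fn a) z ⊓ bmem (x.fn a) y := inf_le_inf_left _ h
    _ ≤ bmem z y := bmem_congr_left _ _ _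

theorem beq_ext (x y : BSet B) :
    beq x y = (⨅ z, bmem z x ⇨ bmem z y) ⊓ (⨅ z, bmem z y ⇨ bmem z x) := by
  apply le_antisymm
  · refine le_inf (le_iInf fun z => ?_) (le_iInf fun z => ?_)
    · rw [le_himp_iff]; exact bmem_congr_right _ _ _
    · rw [le_himp_iff, beq_comm]; exact bmem_congr_right _ _ _
  · apply le_beq
    · intro a
      rw [← le_himp_iff]
      refine le_trans inf_le_left (le_trans (iInf_le _ (x.fn a)) ?_)
      exact himp_le_himp_right (vl_le x a)
    · intro a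
      rw [← le_himp_iff]
      refine le_trans inf_le_right (le_trans (iInf_le _ (y.fn a)) ?_)
      exact himp_le_himp_right (vl_le y a)

theorem bmem_self (x : BSet B) : bmem x x = ⊥ := by
  induction x with
  | mk α A v ih =>
    rw [eq_bot_iff]
    conv_lhs => rw [bmem]
    refine iSup_le fun a => ?_
    have h1 := vl_le (BSet.mk α A v) a
    calc (BSet.mk α A v).vl a ⊓ beq (BSet.mk α A v) ((BSet.mk α A v).fn a)
        ≤ bmem ((BSet.mk α A v).fn a) (BSet.mk α A v) ⊓ beq (BSet.mk α A v) ((BSet.mk α A v).fn a) :=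
          inf_le_inf_right _ h1
      _ = beq (BSet.mk α A v) ((BSet.mk α A v).fn a) ⊓ bmem ((BSet.mk α A v).fn a) (BSet.mk α A v) :=
          inf_comm _ _
      _ ≤ bmem ((BSet.mk α A v).fn a) ((BSet.mk α A v).fn a) := bmem_congr_right _ _ _
      _ = ⊥ := ih a
      _ ≤ ⊥ := le_rfl

end Pool.Agent.BVU
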