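import Pool.Agent.BVU.DDefs

/-!
# BVU module D1: definability calculus, renaming, connectives, quantifiers, substitution
-/

set_option autoImplicit false

namespace Pool.Agent.BVU
universe u
variable {N : Type u} {E : N → N → Prop} {R R' : (ℕ → N) → Prop}

theorem sat_rn (φ : Fm) (f : ℕ → ℕ) (v : ℕ → N) :
    Sat E (φ.rn f) v ↔ Sat E φ (fun n => v (f n)) := by
  induction φ generalizing f v with
  | mem i j => exact Iff.rfl
  | eq i j => exact Iff.rfl
  | neg φ ih => exact not_congr (ih f v)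
  | and φ ψ ih ih' => exact and_congr (ih f v) (ih' f v)
  | all φ ih =>
    refine forall_congr' fun x => ?_
    refine (ih _ (cons x v)).trans ?_
    refine iff_of_eq (congrArg (Sat E φ) ?_)
    funext n
    cases n with
    | zero => rfl
    | succ n => rfl

theorem cons_tl (v : ℕ → N) : cons (v 0) (tl v) = v := by
  funext n
  cases n with
  | zero => rfl
  | succ n => rfl

theorem tl_cons (x : N) (v : ℕ → N) : tl (cons x v) = v := rfl

theorem Dfn.congr (h : Dfn E R) (e : ∀ v, R' v ↔ R v) : Dfn E R' := by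
  obtain ⟨φ, w, h1⟩ := h
  exact ⟨φ, w, fun v => (e v).trans (h1 v)⟩

private theorem d1_even (v w : ℕ → N) (i : ℕ) : mix v w (2 * i) = v i := by
  unfold mix
  rw [if_pos (by omega)]
  congr 1
  omega

private theorem d1_odd (v w : ℕ → N) (i : ℕ) : mix v w (2 * i + 1) = w i := by
  unfold mix
  rw [if_neg (by omega)]
  congr 1
  omega

private def d1_l (n : ℕ) : ℕ := if n % 2 = 0 then n else 2 * (2 * (n / 2)) + 1

private def d1_r (n : ℕ) : ℕ := if n % 2 = 0 then n else 2 * (2 * (n / 2) + 1) + 1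

private theorem d1_mix_l (v w w' : ℕ → N) :
    (fun n => mix v (mix w w') (d1_l n)) = mix v w := by
  funext n
  unfold d1_l
  by_cases h : n % 2 = 0
  · rw [if_pos h]
    unfold mix
    rw [if_pos h, if_pos h]
  · rw [if_neg h, d1_odd, d1_even]
    unfold mix
    rw [if_neg h]

private theorem d1_mix_r (v w w' : ℕ → N) :
    (fun n => mix v (mix w w') (d1_r n)) = mix v w' := by
  funext n
  unfold d1_r
  by_cases h : n % 2 = 0
  · rw [if_pos h]
    unfold mix
    rw [if_pos h, if_pos h]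
  · rw [if_neg h, d1_odd, d1_odd]
    unfold mix
    rw [if_neg h]

theorem Dfn.memVar [Inhabited N] (i j : ℕ) : Dfn E (fun v => E (v i) (v j)) := by
  refine ⟨.mem (2 * i) (2 * j), fun _ => default, fun v => ?_⟩
  show E (v i) (v j) ↔ E (mix v _ (2 * i)) (mix v _ (2 * j))
  rw [d1_even, d1_even]

theorem Dfn.eqVar [Inhabited N] (i j : ℕ) : Dfn E (fun v => v i = v j) := by
  refine ⟨.eq (2 * i) (2 * j), fun _ => default, fun v => ?_⟩
  show v i = v j ↔ mix v _ (2 * i) = mix v _ (2 * j)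
  rw [d1_even, d1_even]

theorem Dfn.prop [Inhabited N] (p : Prop) : Dfn E (fun _ : ℕ → N => p) := by
  by_cases hp : p
  · exact ⟨.eq 0 0, fun _ => default, fun v => iff_of_true hp rfl⟩
  · exact ⟨.neg (.eq 0 0), fun _ => default, fun v => iff_of_false hp fun h => h rfl⟩

theorem Dfn.not (h : Dfn E R) : Dfn E (fun v => ¬ R v) := by
  obtain ⟨φ, w, h1⟩ := h
  exact ⟨.neg φ, w, fun v => not_congr (h1 v)⟩

theorem Dfn.and (h : Dfn E R) (h' : Dfn E R') : Dfn E (fun v => R v ∧ R' v) := by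
  obtain ⟨φ, w, h1⟩ := h
  obtain ⟨φ', w', h1'⟩ := h'
  refine ⟨.and (φ.rn d1_l) (φ'.rn d1_r), mix w w', fun v => ?_⟩
  refine and_congr ((h1 v).trans ?_) ((h1' v).trans ?_)
  · rw [← d1_mix_l v w w']
    exact (sat_rn φ _ _).symm
  · rw [← d1_mix_r v w w']
    exact (sat_rn φ' _ _).symm

theorem Dfn.or (h : Dfn E R) (h' : Dfn E R') : Dfn E (fun v => R v ∨ R' v) := by
  refine (h.not.and h'.not).not.congr fun v => ?_
  tauto

theorem Dfn.imp (h : Dfn E R) (h' : Dfn E R') : Dfn E (fun v => R v → R' v) := by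
  refine (h.and h'.not).not.congr fun v => ?_
  tauto

theorem Dfn.iff (h : Dfn E R) (h' : Dfn E R') : Dfn E (fun v => R v ↔ R' v) := by
  refine ((h.imp h').and (h'.imp h)).congr fun v => ?_
  tauto

private def d1_k (n : ℕ) : ℕ := if n = 0 then 0 else if n % 2 = 0 then n - 1 else n + 1

private theorem d1_cases (n : ℕ) : (∃ i, n = 2 * i) ∨ (∃ i, n = 2 * i + 1) := by
  rcases Nat.even_or_odd n with h | h
  · obtain ⟨i, hi⟩ := h
    exact Or.inl ⟨i, by omega⟩
  · obtain ⟨i, hi⟩ := h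
    exact Or.inr ⟨i, hi⟩

private theorem d1_key (x : N) (v w : ℕ → N) :
    (fun n => (cons x (mix v w)) (d1_k n)) = mix (cons x v) w := by
  funext n
  rcases d1_cases n with ⟨i, rfl⟩ | ⟨i, rfl⟩
  · cases i with
    | zero => rfl
    | succ i =>
      have h : d1_k (2 * (i + 1)) = 2 * i + 1 := by
        unfold d1_k
        rw [if_neg (by omega), if_pos (by omega)]
        omega
      show (cons x (mix v w)) (d1_k (2 * (i + 1))) = _
      rw [h, d1_even]
      show mix v w (2 * i) = v i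
      rw [d1_even]
  · have h : d1_k (2 * i + 1) = (2 * i + 1) + 1 := by
      unfold d1_k
      rw [if_neg (by omega), if_neg (by omega)]
    show (cons x (mix v w)) (d1_k (2 * i + 1)) = _
    rw [h, d1_odd]
    show mix v w (2 * i + 1) = w i
    rw [d1_odd]

private def d1_s (f : ℕ → ℕ) (n : ℕ) : ℕ := if n % 2 = 0 then 2 * f (n / 2) else n

private theorem d1_rn (f : ℕ → ℕ) (v w : ℕ → N) :
    (fun n => (mix v w) (d1_s f n)) = mix (fun n => v (f n)) w := by
  funext n
  rcases d1_cases n with ⟨i, rfl⟩ | ⟨i, rfl⟩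
  · have h : d1_s f (2 * i) = 2 * f i := by
      unfold d1_s
      rw [if_pos (by omega)]
      congr 2
      omega
    show (mix v w) (d1_s f (2 * i)) = _
    rw [h, d1_even, d1_even]
  · have h : d1_s f (2 * i + 1) = 2 * i + 1 := by
      unfold d1_s
      rw [if_neg (by omega)]
    show (mix v w) (d1_s f (2 * i + 1)) = _
    rw [h, d1_odd, d1_odd]

private def d1_f (n : ℕ) : ℕ := if n = 0 then 1 else if n % 2 = 0 then n - 2 else n + 2

private theorem d1_fix (c : N) (v w : ℕ → N) :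
    (fun n => (mix v (cons c w)) (d1_f n)) = mix (cons c v) w := by
  funext n
  rcases d1_cases n with ⟨i, rfl⟩ | ⟨i, rfl⟩
  · cases i with
    | zero => rfl
    | succ i =>
      have h : d1_f (2 * (i + 1)) = 2 * i := by
        unfold d1_f
        rw [if_neg (by omega), if_pos (by omega)]
        omega
      show (mix v (cons c w)) (d1_f (2 * (i + 1))) = _
      rw [h, d1_even, d1_even]
      rfl
  · have h : d1_f (2 * i + 1) = 2 * (i + 1) + 1 := by
      unfold d1_f
      rw [if_neg (by omega), if_neg (by omega)]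
      omega
    show (mix v (cons c w)) (d1_f (2 * i + 1)) = _
    rw [h, d1_odd, d1_odd]
    rfl

/-- The form of a definable relation which is used for quantifiers and for the axioms. -/
theorem Dfn.key {Q : (ℕ → N) → N → Prop} (h : Dfn E (fun v => Q (tl v) (v 0))) :
    ∃ (φ : Fm) (w : ℕ → N), ∀ v x, (Q v x ↔ Sat E φ (cons x (mix v w))) := by
  obtain ⟨φ, w, h1⟩ := h
  refine ⟨φ.rn d1_k, w, fun v x => ?_⟩
  refine (h1 (cons x v)).trans ?_
  rw [← d1_key x v w]
  exact (sat_rn φ _ _).symm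

theorem Dfn.all {Q : (ℕ → N) → N → Prop} (h : Dfn E (fun v => Q (tl v) (v 0))) :
    Dfn E (fun v => ∀ x, Q v x) := by
  obtain ⟨φ, w, h1⟩ := h.key
  exact ⟨.all φ, w, fun v => forall_congr' fun x => h1 v x⟩

theorem Dfn.ex {Q : (ℕ → N) → N → Prop} (h : Dfn E (fun v => Q (tl v) (v 0))) :
    Dfn E (fun v => ∃ x, Q v x) := by
  have h2 := (Dfn.all (Q := fun v x => ¬ Q v x) h.not).not
  refine h2.congr fun v => ?_
  show (∃ x, Q v x) ↔ ¬ ∀ x, ¬ Q v x
  push Not
  rfl

theorem Dfn.rn (f : ℕ → ℕ) (h : Dfn E R) : Dfn E (fun v => R (fun n => v (f n))) := by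
  obtain ⟨φ, w, h1⟩ := h
  refine ⟨φ.rn (d1_s f), w, fun v => ?_⟩
  refine (h1 (fun n => v (f n))).trans ?_
  rw [← d1_rn f v w]
  exact (sat_rn φ _ _).symm

/-- Substitute the constant `c` for the variable `0`. -/
theorem Dfn.fix (c : N) (h : Dfn E R) : Dfn E (fun v => R (cons c v)) := by
  obtain ⟨φ, w, h1⟩ := h
  refine ⟨φ.rn d1_f, cons c w, fun v => ?_⟩
  refine (h1 (cons c v)).trans ?_
  rw [← d1_fix c v w]
  exact (sat_rn φ _ _).symm

theorem Tm.var (i : ℕ) : Tm (fun v : ℕ → N => v i) := Or.inl ⟨i, fun _ => rfl⟩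

theorem Tm.cst (c : N) : Tm (fun _ : ℕ → N => c) := Or.inr ⟨c, fun _ => rfl⟩

/-- Substitute a simple term for the variable `0`. -/
theorem Dfn.sub {t : (ℕ → N) → N} (ht : Tm t) (h : Dfn E R) : Dfn E (fun v => R (cons (t v) v)) := by
  rcases ht with ⟨i, hi⟩ | ⟨c, hc⟩
  · have h1 := h.rn (fun n => match n with | 0 => i | k + 1 => k)
    refine h1.congr fun v => ?_
    refine iff_of_eq (congrArg R ?_)
    funext n
    cases n with
    | zero => exact hi v
    | succ n => rfl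
  · refine (h.fix c).congr fun v => ?_
    rw [hc v]

theorem Dfn.app1 {P : N → Prop} {t : (ℕ → N) → N} (h : Dfn E (fun v => P (v 0))) (ht : Tm t) :
    Dfn E (fun v => P (t v)) := by
  exact Dfn.sub (R := fun v => P (v 0)) ht h

theorem Tm.shift {t : (ℕ → N) → N} (ht : Tm t) : Tm (fun v => t (tl v)) := by
  rcases ht with ⟨i, hi⟩ | ⟨c, hc⟩
  · exact Or.inl ⟨i + 1, fun v => hi (tl v)⟩
  · exact Or.inr ⟨c, fun v => hc (tl v)⟩

theorem Dfn.app2 {P : N → N → Prop} {t s : (ℕ → N) → N} (h : Dfn E (fun v => P (v 0) (v 1)))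
    (ht : Tm t) (hs : Tm s) : Dfn E (fun v => P (t v) (s v)) := by
  have h1 : Dfn E (fun v => P (v 1) (v 0)) :=
    h.rn (fun n => match n with | 0 => 1 | 1 => 0 | k + 2 => k + 2)
  have h2 : Dfn E (fun v => P (v 0) (s (tl v))) :=
    Dfn.sub (R := fun v => P (v 1) (v 0)) hs.shift h1
  exact Dfn.sub (R := fun v => P (v 0) (s (tl v))) ht h2

theorem Dfn.app3 {P : N → N → N → Prop} {t s r : (ℕ → N) → N}
    (h : Dfn E (fun v => P (v 0) (v 1) (v 2))) (ht : Tm t) (hs : Tm s) (hr : Tm r) :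
    Dfn E (fun v => P (t v) (s v) (r v)) := by
  have h1 : Dfn E (fun v => P (v 1) (v 2) (v 0)) :=
    h.rn (fun n => match n with | 0 => 1 | 1 => 2 | 2 => 0 | k + 3 => k + 3)
  have h2 : Dfn E (fun v => P (v 0) (v 1) (r (tl (tl v)))) :=
    Dfn.sub (R := fun v => P (v 1) (v 2) (v 0)) hr.shift.shift h1
  have h3 : Dfn E (fun v => P (v 1) (v 0) (r (tl (tl v)))) :=
    h2.rn (fun n => match n with | 0 => 1 | 1 => 0 | k + 2 => k + 2)
  have h4 : Dfn E (fun v => P (v 0) (s (tl v)) (r (tl v))) :=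
    Dfn.sub (R := fun v => P (v 1) (v 0) (r (tl (tl v)))) hs.shift h3
  exact Dfn.sub (R := fun v => P (v 0) (s (tl v)) (r (tl v))) ht h4

theorem Dfn.app4 {P : N → N → N → N → Prop} {t s r q : (ℕ → N) → N}
    (h : Dfn E (fun v => P (v 0) (v 1) (v 2) (v 3))) (ht : Tm t) (hs : Tm s) (hr : Tm r) (hq : Tm q) :
    Dfn E (fun v => P (t v) (s v) (r v) (q v)) := by
  have h1 : Dfn E (fun v => P (v 1) (v 2) (v 3) (v 0)) :=
    h.rn (fun n => match n with | 0 => 1 | 1 => 2 | 2 => 3 | 3 => 0 | k + 4 => k + 4)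
  have h2 : Dfn E (fun v => P (v 0) (v 1) (v 2) (q (tl (tl (tl v))))) :=
    Dfn.sub (R := fun v => P (v 1) (v 2) (v 3) (v 0)) hq.shift.shift.shift h1
  have h3 : Dfn E (fun v => P (v 1) (v 2) (v 0) (q (tl (tl (tl v))))) :=
    h2.rn (fun n => match n with | 0 => 1 | 1 => 2 | 2 => 0 | k + 3 => k + 3)
  have h4 : Dfn E (fun v => P (v 0) (v 1) (r (tl (tl v))) (q (tl (tl v)))) :=
    Dfn.sub (R := fun v => P (v 1) (v 2) (v 0) (q (tl (tl (tl v))))) hr.shift.shift h3
  have h5 : Dfn E (fun v => P (v 1) (v 0) (r (tl (tl v))) (q (tl (tl v)))) :=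
    h4.rn (fun n => match n with | 0 => 1 | 1 => 0 | k + 2 => k + 2)
  have h6 : Dfn E (fun v => P (v 0) (s (tl v)) (r (tl v)) (q (tl v))) :=
    Dfn.sub (R := fun v => P (v 1) (v 0) (r (tl (tl v))) (q (tl (tl v)))) hs.shift h5
  exact Dfn.sub (R := fun v => P (v 0) (s (tl v)) (r (tl v)) (q (tl v))) ht h6

theorem Dfn.mem [Inhabited N] {t s : (ℕ → N) → N} (ht : Tm t) (hs : Tm s) :
    Dfn E (fun v => E (t v) (s v)) :=
  Dfn.app2 (P := E) (Dfn.memVar 0 1) ht hs

theorem Dfn.eq [Inhabited N] {t s : (ℕ → N) → N} (ht : Tm t) (hs : Tm s) :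
    Dfn E (fun v => t v = s v) :=
  Dfn.app2 (P := fun x y => x = y) (Dfn.eqVar 0 1) ht hs

end Pool.Agent.BVU
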