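import Pool.Agent.BVU.D1

/-!
# BVU module D2: separation and replacement for definable Lean predicates

Goals `Dfn E (fun v => ...)` are proved by decomposing the formula with
`repeat' (first | exact Tm.var _ | exact Tm.cst _ | exact Dfn.prop _ | apply Dfn.mem | apply Dfn.eq | apply Dfn.ne | apply Dfn.and
| apply Dfn.or | apply Dfn.iff | apply Dfn.not | apply Dfn.imp | apply Dfn.ex | apply Dfn.all)`; it looks through ordinary
definitions but not through structures.  A hypothesis `h : Dfn E (fun v => P (v 0) (v 1))` is used for `P t s` by `Dfn.app2 h`.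
-/

set_option autoImplicit false

namespace Pool.Agent.BVU
universe u
variable {N : Type u} {E : N → N → Prop}

theorem Dfn.ne [Inhabited N] {t s : (ℕ → N) → N} (ht : Tm t) (hs : Tm s) :
    Dfn E (fun v => t v ≠ s v) := (Dfn.eq ht hs).not

/-- Separation for a definable predicate. -/
theorem ZFC.sepP (hE : ZFC E) {Q : N → Prop} (h : Dfn E (fun v => Q (v 0))) (x : N) :
    ∃ z, ∀ w, E w z ↔ E w x ∧ Q w := by
  obtain ⟨φ, w, hφ⟩ := Dfn.key (Q := fun _ y => Q y) h
  obtain ⟨z, hz⟩ := hE.sep φ (mix (fun _ => x) w) x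
  exact ⟨z, fun y => (hz y).trans (and_congr_right fun _ => (hφ (fun _ => x) y).symm)⟩

/-- Replacement for a definable relation. -/
theorem ZFC.replP (hE : ZFC E) {Q : N → N → Prop} (h : Dfn E (fun v => Q (v 0) (v 1))) (x : N)
    (hf : ∀ a, E a x → ∃! b, Q a b) : ∃ z, ∀ b, E b z ↔ ∃ a, E a x ∧ Q a b := by
  obtain ⟨φ, w, hφ⟩ := h
  obtain ⟨ρ, hρ⟩ : ∃ ρ : ℕ → ℕ, ρ = fun n => if n = 0 then 0 else if n = 2 then 1 else
    if n % 2 = 0 then n - 2 else n + 2 := ⟨_, rfl⟩
  have key : ∀ a b, Q a b ↔ Sat E (φ.rn ρ) (cons a (cons b (mix (fun _ => x) w))) := by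
    intro a b
    refine (hφ (cons a (cons b (fun _ => x)))).trans ?_
    rw [sat_rn]
    refine iff_of_eq (congrArg (Sat E φ) ?_)
    funext n
    by_cases h0 : n = 0
    · subst h0
      rw [hρ]
      rfl
    · by_cases h2 : n = 2
      · subst h2
        rw [hρ]
        rfl
      · rcases Nat.even_or_odd' n with ⟨k, rfl | rfl⟩
        · obtain ⟨i, rfl⟩ : ∃ i, k = i + 2 := ⟨k - 2, by omega⟩
          have e1 : ρ (2 * (i + 2)) = 2 * i + 2 := by
            rw [hρ]
            simp only
            rw [if_neg (by omega), if_neg (by omega), if_pos (by omega)]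
            omega
          rw [e1]
          have e2 : cons a (cons b (mix (fun _ => x) w)) (2 * i + 2) =
            mix (fun _ => x) w (2 * i) := rfl
          rw [e2]
          unfold mix
          rw [if_pos (by omega), if_pos (by omega)]
          have e3 : 2 * (i + 2) / 2 = i + 2 := by omega
          rw [e3]
          rfl
        · have e1 : ρ (2 * k + 1) = 2 * k + 1 + 2 := by
            rw [hρ]
            simp only
            rw [if_neg (by omega), if_neg (by omega), if_neg (by omega)]
          rw [e1]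
          have e2 : cons a (cons b (mix (fun _ => x) w)) (2 * k + 1 + 2) =
            mix (fun _ => x) w (2 * k + 1) := rfl
          rw [e2]
          unfold mix
          rw [if_neg (by omega), if_neg (by omega)]
  obtain ⟨z, hz⟩ := hE.repl (φ.rn ρ) (mix (fun _ => x) w) x fun a ha => by
    obtain ⟨b, hb, hu⟩ := hf a ha
    exact ⟨b, (key a b).1 hb, fun c hc => hu c ((key a c).2 hc)⟩
  exact ⟨z, fun b => (hz b).trans (exists_congr fun a => and_congr_right fun _ => (key a b).symm)⟩

end Pool.Agent.BVU
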