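import Pool.Agent.BVU.Defs

/-!
# BVU: definability with parameters over a structure `(N, E)` (definitions)

`Dfn E R`: the property `R` of assignments is definable over `(N, E)` with parameters from `N`.
All elements of `N` are allowed as values of the assignments, so (in contrast to the calculus in `FBZ`) there are no side
conditions.  A goal `Dfn E (fun v => ...)`, where `...` is built from `E`, `=`, the connectives and quantifiers over `N`,
with variables `v i` and constants from `N`, is proved by the tactic `dfn` (file `D2`).
-/

set_option autoImplicit false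

namespace Pool.Agent.BVU

universe u
variable {N : Type u}

/-- The tail of an assignment. -/
abbrev tl (v : ℕ → N) : ℕ → N := fun n => v (n + 1)

/-- The assignment with the even entries from `v` and the odd entries from `w`. -/
def mix (v w : ℕ → N) : ℕ → N := fun n => if n % 2 = 0 then v (n / 2) else w (n / 2)

/-- Renaming of variables. -/
def Fm.rn : (ℕ → ℕ) → Fm → Fm
  | f, .mem i j => .mem (f i) (f j)
  | f, .eq i j => .eq (f i) (f j)
  | f, .neg φ => .neg (φ.rn f)
  | f, .and φ ψ => .and (φ.rn f) (ψ.rn f)
  | f, .all φ => .all (φ.rn (fun n => match n with | 0 => 0 | k + 1 => f k + 1))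

/-- `R` is definable over `(N, E)` with parameters. -/
def Dfn (E : N → N → Prop) (R : (ℕ → N) → Prop) : Prop :=
  ∃ (φ : Fm) (w : ℕ → N), ∀ v, R v ↔ Sat E φ (mix v w)

/-- Simple terms: variables and constants. -/
def Tm (t : (ℕ → N) → N) : Prop := (∃ i, ∀ v, t v = v i) ∨ (∃ c, ∀ v, t v = c)

end Pool.Agent.BVU
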