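import Mathlib

/-!
# BVU: first-order set theory and the Boolean-valued universe (definitions)

A structure for the language of set theory is a type `N` with a binary relation `E` (read `E x y` as: x is an element of y).

README of the library `Pool/Agent/BVU` (Boolean-valued models of ZFC, no hypotheses):
* `Fm`, `Sat`, `ZFC E`: formulas, truth in `(N, E)`, models of ZFC;
* `BSet B`, `beq`, `bmem`, `bv`: the Boolean-valued universe of a complete Boolean algebra `B : Type` and the truth values
  of formulas; `natN n`, `omN`, `subN W`: names for natural numbers, `ω`, subsets of `ω`;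
* `UF B`: ultrafilters; `QN U`, `qE U`, `qmk U`: the quotient structure of `BSet B` by an ultrafilter (file `Quot`);
* main theorems: `los` (truth in the quotient = truth value in the ultrafilter) and `zfc_q` (the quotient is a model of ZFC);
* `Rep`: a calculus which translates statements about `(QN U, qE U)` into statements about truth values.
-/

set_option autoImplicit false

namespace Pool.Agent.BVU

universe u

/-! ### first-order formulas -/

/-- First-order formulas in the language of set theory.  Variables are de Bruijn indices: `all φ` quantifies the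
variable `0`. -/
inductive Fm : Type
  | mem : ℕ → ℕ → Fm
  | eq : ℕ → ℕ → Fm
  | neg : Fm → Fm
  | and : Fm → Fm → Fm
  | all : Fm → Fm

/-- Put `x` in front of the assignment `v`. -/
def cons {N : Type u} (x : N) (v : ℕ → N) : ℕ → N
  | 0 => x
  | n + 1 => v n

/-- Truth of a formula in the structure `(N, E)` under an assignment. -/
def Sat {N : Type u} (E : N → N → Prop) : Fm → (ℕ → N) → Prop
  | .mem i j, v => E (v i) (v j)
  | .eq i j, v => v i = v j
  | .neg φ, v => ¬ Sat E φ v
  | .and φ ψ, v => Sat E φ v ∧ Sat E ψ v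
  | .all φ, v => ∀ x, Sat E φ (cons x v)

/-- `(N, E)` is a model of ZFC. -/
structure ZFC {N : Type u} (E : N → N → Prop) : Prop where
  /-- extensionality -/
  ext : ∀ x y, (∀ z, E z x ↔ E z y) → x = y
  /-- foundation -/
  found : ∀ x, (∃ y, E y x) → ∃ y, E y x ∧ ∀ z, E z y → ¬ E z x
  /-- pairing -/
  pair : ∀ x y, ∃ z, ∀ w, E w z ↔ w = x ∨ w = y
  /-- union -/
  union : ∀ x, ∃ z, ∀ w, E w z ↔ ∃ y, E y x ∧ E w y
  /-- power set -/
  power : ∀ x, ∃ z, ∀ w, E w z ↔ ∀ u, E u w → E u x
  /-- infinity -/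
  inf : ∃ z, (∃ e, E e z ∧ ∀ w, ¬ E w e) ∧ ∀ x, E x z → ∃ s, E s z ∧ ∀ w, E w s ↔ E w x ∨ w = x
  /-- separation, for every formula with parameters -/
  sep : ∀ (φ : Fm) (v : ℕ → N) (x : N), ∃ z, ∀ w, E w z ↔ E w x ∧ Sat E φ (cons w v)
  /-- replacement, for every formula with parameters -/
  repl : ∀ (φ : Fm) (v : ℕ → N) (x : N), (∀ a, E a x → ∃! b, Sat E φ (cons a (cons b v))) →
    ∃ z, ∀ b, E b z ↔ ∃ a, E a x ∧ Sat E φ (cons a (cons b v))
  /-- choice: a family of pairwise disjoint nonempty sets has a transversal -/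
  choice : ∀ x, (∀ y, E y x → ∃ z, E z y) →
    (∀ y y', E y x → E y' x → y ≠ y' → ∀ z, ¬ (E z y ∧ E z y')) →
    ∃ c, ∀ y, E y x → ∃! z, E z y ∧ E z c

/-! ### Boolean-valued sets -/

/-- `B`-valued sets: a family of `B`-valued sets together with truth values. -/
inductive BSet (B : Type) : Type 1
  | mk (α : Type) (A : α → BSet B) (v : α → B) : BSet B

namespace BSet
variable {B : Type}

/-- The index type. -/
def ty : BSet B → Type
  | mk α _ _ => α

/-- The members. -/
def fn : (x : BSet B) → x.ty → BSet B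
  | mk _ A _ => A

/-- The truth values of the members. -/
def vl : (x : BSet B) → x.ty → B
  | mk _ _ v => v

variable [CompleteBooleanAlgebra B]

/-- The truth value of `x = y`. -/
def beq : BSet B → BSet B → B
  | mk _ A v, mk _ A' v' => (⨅ a, v a ⇨ ⨆ a', v' a' ⊓ beq (A a) (A' a')) ⊓
      (⨅ a', v' a' ⇨ ⨆ a, v a ⊓ beq (A a) (A' a'))

/-- The truth value of `x ∈ y`. -/
def bmem (x y : BSet B) : B := ⨆ a : y.ty, y.vl a ⊓ beq x (y.fn a)

/-- `x ∪ {x}` -/
def bsucc (x : BSet B) : BSet B :=
  mk (Option x.ty) (fun o => o.elim x x.fn) (fun o => o.elim ⊤ x.vl)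

/-- The name of the natural number `n`. -/
def natN : ℕ → BSet B
  | 0 => mk Empty (fun e => e.elim) (fun _ => ⊥)
  | n + 1 => bsucc (natN n)

/-- The name of the subset of `ω` with truth values `W`. -/
def subN (W : ℕ → B) : BSet B := mk ℕ natN W

/-- The name of `ω`. -/
def omN : BSet B := subN (fun _ => ⊤)

end BSet

/-- The truth value of a formula in the Boolean-valued universe. -/
def bv {B : Type} [CompleteBooleanAlgebra B] : Fm → (ℕ → BSet B) → B
  | .mem i j, v => BSet.bmem (v i) (v j)
  | .eq i j, v => BSet.beq (v i) (v j)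
  | .neg φ, v => (bv φ v)ᶜ
  | .and φ ψ, v => bv φ v ⊓ bv ψ v
  | .all φ, v => ⨅ x, bv φ (cons x v)

/-- Ultrafilters on a Boolean algebra. -/
structure UF (B : Type) [BooleanAlgebra B] where
  s : Set B
  top : ⊤ ∈ s
  bot : ⊥ ∉ s
  inf : ∀ a ∈ s, ∀ b ∈ s, a ⊓ b ∈ s
  up : ∀ a ∈ s, ∀ b, a ≤ b → b ∈ s
  em : ∀ a, a ∈ s ∨ aᶜ ∈ s

end Pool.Agent.BVU
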