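import Pool.Agent.BVU.Beq

/-!
# BVU module Ext: extensional Boolean-valued predicates

`ExtB f`: the predicate `f : BSet B → B` respects equality.

The closure properties are Boolean algebra (for `compl` and `himp` use `beq_comm`; for `compl`:
`beq x y ⊓ (f x)ᶜ ≤ (f y)ᶜ` iff `beq x y ⊓ (f x)ᶜ ⊓ f y ≤ ⊥`, and `beq y x ⊓ f y ≤ f x`).
`iSup_bmem`: `≤`: `bmem z y ⊓ f z = ⨆ a, y.vl a ⊓ beq z (y.fn a) ⊓ f z` and `beq z (y.fn a) ⊓ f z ≤ f (y.fn a)`;
`≥`: `y.vl a ≤ bmem (y.fn a) y` (`vl_le`).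
`iInf_bmem`: same, or by taking complements.
`bv_congr`: induction on the formula for all `v w`.  `mem`: `bmem_congr_left`, `bmem_congr_right`; `eq`: `beq_trans`, `beq_comm`;
`neg`: use the induction hypothesis with `v`, `w` exchanged; `all`: for each `x` apply the induction hypothesis to
`cons x v`, `cons x w` (`⨅ i, beq (v i) (w i) ≤ ⨅ i, beq (cons x v i) (cons x w i)` since `beq x x = ⊤`).
`ExtB_bv`: `bv_congr` for `cons x v`, `cons y v`.
-/

set_option autoImplicit false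

namespace Pool.Agent.BVU

open BSet

variable {B : Type} [CompleteBooleanAlgebra B]

/-- `f` respects equality. -/
def ExtB (f : BSet B → B) : Prop := ∀ x y, beq x y ⊓ f x ≤ f y

theorem ExtB.const (b : B) : ExtB (fun _ : BSet B => b) := by
  intro x y
  exact inf_le_right

theorem ExtB.inf {f g : BSet B → B} (hf : ExtB f) (hg : ExtB g) : ExtB (fun x => f x ⊓ g x) := by
  intro x y
  refine le_inf (le_trans ?_ (hf x y)) (le_trans ?_ (hg x y))
  · exact inf_le_inf_left _ inf_le_left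
  · exact inf_le_inf_left _ inf_le_right

theorem ExtB.sup {f g : BSet B → B} (hf : ExtB f) (hg : ExtB g) : ExtB (fun x => f x ⊔ g x) := by
  intro x y
  change beq x y ⊓ (f x ⊔ g x) ≤ f y ⊔ g y
  rw [inf_sup_left]
  exact sup_le_sup (hf x y) (hg x y)

theorem ExtB.himp {f g : BSet B → B} (hf : ExtB f) (hg : ExtB g) : ExtB (fun x => f x ⇨ g x) := by
  intro x y
  change beq x y ⊓ (f x ⇨ g x) ≤ f y ⇨ g y
  rw [le_himp_iff]
  calc beq x y ⊓ (f x ⇨ g x) ⊓ f y = beq x y ⊓ ((f x ⇨ g x) ⊓ (beq y x ⊓ f y)) := by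
        rw [beq_comm y x]
        calc beq x y ⊓ (f x ⇨ g x) ⊓ f y = (beq x y ⊓ beq x y) ⊓ (f x ⇨ g x) ⊓ f y := by
              rw [inf_idem]
          _ = _ := by ac_rfl
    _ ≤ beq x y ⊓ ((f x ⇨ g x) ⊓ f x) := inf_le_inf_left _ (inf_le_inf_left _ (hf y x))
    _ ≤ beq x y ⊓ g x := inf_le_inf_left _ himp_inf_le
    _ ≤ g y := hg x y

theorem ExtB.compl {f : BSet B → B} (hf : ExtB f) : ExtB (fun x => (f x)ᶜ) := by
  have h := ExtB.himp hf (ExtB.const (B := B) ⊥)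
  intro x y
  have h2 := h x y
  change beq x y ⊓ (f x ⇨ ⊥) ≤ f y ⇨ ⊥ at h2
  rwa [himp_bot, himp_bot] at h2

theorem ExtB.iInf {ι : Sort*} {f : ι → BSet B → B} (hf : ∀ i, ExtB (f i)) : ExtB (fun x => ⨅ i, f i x) := by
  intro x y
  refine le_iInf fun i => le_trans ?_ (hf i x y)
  exact inf_le_inf_left _ (iInf_le _ i)

theorem ExtB.iSup {ι : Sort*} {f : ι → BSet B → B} (hf : ∀ i, ExtB (f i)) : ExtB (fun x => ⨆ i, f i x) := by
  intro x y
  change beq x y ⊓ (⨆ i, f i x) ≤ ⨆ i, f i y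
  rw [inf_iSup_eq]
  exact iSup_mono fun i => hf i x y

theorem ExtB.mem_left (z : BSet B) : ExtB (fun x => bmem x z) :=
  fun x y => bmem_congr_left x y z

theorem ExtB.mem_right (z : BSet B) : ExtB (fun x => bmem z x) :=
  fun x y => bmem_congr_right x y z

theorem ExtB.eq_left (z : BSet B) : ExtB (fun x => beq x z) := by
  intro x y
  change beq x y ⊓ beq x z ≤ beq y z
  rw [beq_comm x y]
  exact beq_trans _ _ _

theorem ExtB.eq_right (z : BSet B) : ExtB (fun x => beq z x) := by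
  intro x y
  change beq x y ⊓ beq z x ≤ beq z y
  rw [inf_comm]
  exact beq_trans _ _ _

theorem iSup_bmem {f : BSet B → B} (hf : ExtB f) (y : BSet B) :
    (⨆ z, bmem z y ⊓ f z) = ⨆ a : y.ty, y.vl a ⊓ f (y.fn a) := by
  apply le_antisymm
  · refine iSup_le fun z => ?_
    rw [bmem, iSup_inf_eq]
    refine iSup_mono fun a => ?_
    calc y.vl a ⊓ beq z (y.fn a) ⊓ f z = y.vl a ⊓ (beq z (y.fn a) ⊓ f z) := inf_assoc _ _ _
      _ ≤ y.vl a ⊓ f (y.fn a) := inf_le_inf_left _ (hf _ _)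
  · refine iSup_le fun a => ?_
    refine le_trans (inf_le_inf_right _ (vl_le y a)) ?_
    exact le_iSup (fun z => bmem z y ⊓ f z) (y.fn a)

theorem iInf_bmem {f : BSet B → B} (hf : ExtB f) (y : BSet B) :
    (⨅ z, bmem z y ⇨ f z) = ⨅ a : y.ty, y.vl a ⇨ f (y.fn a) := by
  apply le_antisymm
  · refine le_iInf fun a => ?_
    refine le_trans (iInf_le _ (y.fn a)) ?_
    exact himp_le_himp_right (vl_le y a)
  · refine le_iInf fun z => ?_
    rw [le_himp_iff, bmem, inf_iSup_eq]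
    refine iSup_le fun a => ?_
    calc (⨅ a : y.ty, y.vl a ⇨ f (y.fn a)) ⊓ (y.vl a ⊓ beq z (y.fn a))
        ≤ (y.vl a ⇨ f (y.fn a)) ⊓ (y.vl a ⊓ beq z (y.fn a)) := inf_le_inf_right _ (iInf_le _ a)
      _ = beq (y.fn a) z ⊓ ((y.vl a ⇨ f (y.fn a)) ⊓ y.vl a) := by rw [beq_comm z]; ac_rfl
      _ ≤ beq (y.fn a) z ⊓ f (y.fn a) := inf_le_inf_left _ himp_inf_le
      _ ≤ f z := hf _ _

private theorem Ext_cons (x : BSet B) (v w : ℕ → BSet B) :
    (⨅ i, beq (v i) (w i)) ≤ ⨅ i, beq (cons x v i) (cons x w i) := by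
  refine le_iInf fun i => ?_
  cases i with
  | zero =>
    change _ ≤ beq x x
    rw [beq_refl]
    exact le_top
  | succ n => exact iInf_le (fun i => beq (v i) (w i)) n

theorem bv_congr (φ : Fm) (v w : ℕ → BSet B) : (⨅ i, beq (v i) (w i)) ⊓ bv φ v ≤ bv φ w := by
  induction φ generalizing v w with
  | mem i j =>
    change (⨅ i, beq (v i) (w i)) ⊓ bmem (v i) (v j) ≤ bmem (w i) (w j)
    calc (⨅ i, beq (v i) (w i)) ⊓ bmem (v i) (v j)
        ≤ (beq (v j) (w j) ⊓ beq (v i) (w i)) ⊓ bmem (v i) (v j) :=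
          inf_le_inf_right _ (le_inf (iInf_le _ j) (iInf_le _ i))
      _ = beq (v j) (w j) ⊓ (beq (v i) (w i) ⊓ bmem (v i) (v j)) := inf_assoc _ _ _
      _ ≤ beq (v j) (w j) ⊓ bmem (w i) (v j) := inf_le_inf_left _ (bmem_congr_left _ _ _)
      _ ≤ bmem (w i) (w j) := bmem_congr_right _ _ _
  | eq i j =>
    change (⨅ i, beq (v i) (w i)) ⊓ beq (v i) (v j) ≤ beq (w i) (w j)
    calc (⨅ i, beq (v i) (w i)) ⊓ beq (v i) (v j)
        ≤ (beq (v j) (w j) ⊓ beq (v i) (w i)) ⊓ beq (v i) (v j) :=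
          inf_le_inf_right _ (le_inf (iInf_le _ j) (iInf_le _ i))
      _ = beq (v j) (w j) ⊓ (beq (v i) (w i) ⊓ beq (v i) (v j)) := inf_assoc _ _ _
      _ ≤ beq (v j) (w j) ⊓ beq (w i) (v j) := inf_le_inf_left _ (ExtB.eq_left (v j) _ _)
      _ ≤ beq (w i) (w j) := ExtB.eq_right (w i) _ _
  | neg φ ih =>
    change (⨅ i, beq (v i) (w i)) ⊓ (bv φ v)ᶜ ≤ (bv φ w)ᶜ
    rw [← himp_bot (bv φ w), le_himp_iff]
    calc (⨅ i, beq (v i) (w i)) ⊓ (bv φ v)ᶜ ⊓ bv φ w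
        = (bv φ v)ᶜ ⊓ ((⨅ i, beq (w i) (v i)) ⊓ bv φ w) := by
          rw [iInf_congr fun i => beq_comm (w i) (v i)]
          ac_rfl
      _ ≤ (bv φ v)ᶜ ⊓ bv φ v := inf_le_inf_left _ (ih w v)
      _ ≤ ⊥ := by rw [compl_inf_eq_bot]
  | and φ ψ ih1 ih2 =>
    change (⨅ i, beq (v i) (w i)) ⊓ (bv φ v ⊓ bv ψ v) ≤ bv φ w ⊓ bv ψ w
    exact le_inf (le_trans (inf_le_inf_left _ inf_le_left) (ih1 v w))
      (le_trans (inf_le_inf_left _ inf_le_right) (ih2 v w))
  | all φ ih =>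
    change (⨅ i, beq (v i) (w i)) ⊓ (⨅ x, bv φ (cons x v)) ≤ ⨅ x, bv φ (cons x w)
    refine le_iInf fun x => ?_
    refine le_trans (inf_le_inf (Ext_cons x v w) (iInf_le _ x)) (ih _ _)

theorem ExtB_bv (φ : Fm) (v : ℕ → BSet B) : ExtB (fun x => bv φ (cons x v)) := by
  intro x y
  refine le_trans (inf_le_inf_right _ ?_) (bv_congr φ (cons x v) (cons y v))
  refine le_iInf fun i => ?_
  cases i with
  | zero => exact le_rfl
  | succ n =>
    change _ ≤ beq (v n) (v n)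
    rw [beq_refl]
    exact le_top

/-- The second variable: used for replacement. -/
theorem ExtB_bv' (φ : Fm) (a : BSet B) (v : ℕ → BSet B) : ExtB (fun x => bv φ (cons a (cons x v))) := by
  intro x y
  refine le_trans (inf_le_inf_right _ ?_) (bv_congr φ (cons a (cons x v)) (cons a (cons y v)))
  refine le_iInf fun i => ?_
  rcases i with _ | _ | n
  · change _ ≤ beq a a
    rw [beq_refl]
    exact le_top
  · exact le_rfl
  · change _ ≤ beq (v n) (v n)
    rw [beq_refl]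
    exact le_top

end Pool.Agent.BVU
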