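import Pool.Agent.BVU.Ext

/-!
# BVU module Mix: the mixing lemma and the maximum principle

`exists_mix`: `y := mk (Σ i, (x i).ty) (fun e => (x e.1).fn e.2) (fun e => a e.1 ⊓ (x e.1).vl e.2)`.  To show
`a i ≤ beq y (x i)` use `le_beq`.  First part: for `e = (j, c)`: `a i ⊓ (a j ⊓ (x j).vl c) ≤ bmem ((x j).fn c) (x i)`: if `j = i` this
is `vl_le`, if `j ≠ i` then `a i ⊓ a j = ⊥`.  Second part: for `c : (x i).ty`: `a i ⊓ (x i).vl c ≤ bmem ((x i).fn c) y`: `vl_le y ⟨i, c⟩`.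

`max_principle`: let `I := Set.range f` (a type in `Type`, since `B : Type`); for `b : I` choose `x b` with `f (x b) = b`.  Take a
well-order on `I` (`exists_wellOrder` or `WellOrderingRel`), `a b := b ⊓ (⨆ b' < b, b')ᶜ`.  The `a b` are pairwise disjoint and
`⨆ b, a b = ⨆ b, b` (well-founded induction: `b ≤ ⨆ b' ≤ b, a b'`).  Mix: `a b ≤ beq y (x b)`, hence
`a b ≤ beq y (x b) ⊓ f (x b) ≤ f y` (`a b ≤ b = f (x b)`, `beq_comm`).  So `⨆ b, b ≤ f y`.

`exists_disjoint_refinement` is the well-order argument (useful elsewhere).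
-/

set_option autoImplicit false

namespace Pool.Agent.BVU

open BSet

variable {B : Type} [CompleteBooleanAlgebra B]

theorem exists_mix {I : Type} (a : I → B) (x : I → BSet B) (h : ∀ i j, i ≠ j → a i ⊓ a j = ⊥) :
    ∃ y, ∀ i, a i ≤ beq y (x i) := by
  classical
  refine ⟨BSet.mk (Σ i, (x i).ty) (fun e => (x e.1).fn e.2) (fun e => a e.1 ⊓ (x e.1).vl e.2), fun i => ?_⟩
  apply le_beq
  · rintro ⟨j, c⟩
    change a i ⊓ (a j ⊓ (x j).vl c) ≤ bmem ((x j).fn c) (x i)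
    by_cases hij : i = j
    · subst hij
      exact le_trans (le_trans inf_le_right inf_le_right) (vl_le _ _)
    · rw [← inf_assoc, h i j hij, bot_inf_eq]
      exact bot_le
  · intro c
    exact vl_le (BSet.mk (Σ i, (x i).ty) (fun e => (x e.1).fn e.2) (fun e => a e.1 ⊓ (x e.1).vl e.2)) ⟨i, c⟩

theorem exists_disjoint_refinement {I : Type} (b : I → B) :
    ∃ a : I → B, (∀ i, a i ≤ b i) ∧ (∀ i j, i ≠ j → a i ⊓ a j = ⊥) ∧ (⨆ i, b i) = ⨆ i, a i := by
  classical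
  let r : I → I → Prop := WellOrderingRel
  have hwf : WellFounded r := (WellOrderingRel.isWellOrder (α := I)).toIsWellFounded.wf
  have htri : ∀ i j, i ≠ j → r i j ∨ r j i := by
    intro i j hij
    have h := (inferInstance : Std.Trichotomous r).trichotomous i j
    by_contra hcon
    push Not at hcon
    exact hij (h hcon.1 hcon.2)
  have hkey : ∀ i j, r i j → (b i ⊓ (⨆ k : {k // r k i}, b k.1)ᶜ) ⊓ (b j ⊓ (⨆ k : {k // r k j}, b k.1)ᶜ) = ⊥ := by
    intro i j hij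
    rw [eq_bot_iff]
    calc (b i ⊓ (⨆ k : {k // r k i}, b k.1)ᶜ) ⊓ (b j ⊓ (⨆ k : {k // r k j}, b k.1)ᶜ)
        ≤ b i ⊓ (⨆ k : {k // r k j}, b k.1)ᶜ := inf_le_inf inf_le_left inf_le_right
      _ ≤ (⨆ k : {k // r k j}, b k.1) ⊓ (⨆ k : {k // r k j}, b k.1)ᶜ :=
          inf_le_inf_right _ (le_iSup (fun k : {k // r k j} => b k.1) ⟨i, hij⟩)
      _ ≤ ⊥ := by rw [inf_compl_eq_bot]
  refine ⟨fun i => b i ⊓ (⨆ k : {k // r k i}, b k.1)ᶜ, fun i => inf_le_left, fun i j hij => ?_, ?_⟩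
  · rcases htri i j hij with h | h
    · exact hkey i j h
    · change (b i ⊓ (⨆ k : {k // r k i}, b k.1)ᶜ) ⊓ (b j ⊓ (⨆ k : {k // r k j}, b k.1)ᶜ) = ⊥
      rw [inf_comm]
      exact hkey j i h
  · apply le_antisymm
    · refine iSup_le fun i => ?_
      induction i using hwf.induction with
      | _ i ih =>
        have hS : (⨆ k : {k // r k i}, b k.1) ≤ ⨆ i, b i ⊓ (⨆ k : {k // r k i}, b k.1)ᶜ :=
          iSup_le fun k => ih k.1 k.2
        calc b i = b i ⊓ ((⨆ k : {k // r k i}, b k.1) ⊔ (⨆ k : {k // r k i}, b k.1)ᶜ) := by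
              rw [sup_compl_eq_top, inf_top_eq]
          _ = (b i ⊓ (⨆ k : {k // r k i}, b k.1)) ⊔ (b i ⊓ (⨆ k : {k // r k i}, b k.1)ᶜ) := inf_sup_left _ _ _
          _ ≤ _ := sup_le (le_trans inf_le_right hS)
              (le_iSup (fun i => b i ⊓ (⨆ k : {k // r k i}, b k.1)ᶜ) i)
    · exact iSup_mono fun i => inf_le_left

/-- The maximum principle: a supremum over the whole universe is attained. -/
theorem max_principle {f : BSet B → B} (hf : ExtB f) : ∃ x, f x = ⨆ y, f y := by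
  classical
  let I : Type := Set.range f
  have hx : ∀ i : I, ∃ x, f x = i.1 := fun i => i.2
  choose x hx using hx
  obtain ⟨a, ha1, ha2, ha3⟩ := exists_disjoint_refinement (fun i : I => (i.1 : B))
  obtain ⟨y, hy⟩ := exists_mix a x ha2
  refine ⟨y, le_antisymm (le_iSup f y) (iSup_le fun z => ?_)⟩
  have h1 : ∀ i, a i ≤ f y := by
    intro i
    calc a i ≤ beq y (x i) ⊓ f (x i) := le_inf (hy i) (by rw [hx i]; exact ha1 i)
      _ = beq (x i) y ⊓ f (x i) := by rw [beq_comm]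
      _ ≤ f y := hf _ _
  calc f z ≤ ⨆ i : I, (i.1 : B) := le_iSup (fun i : I => (i.1 : B)) ⟨f z, ⟨z, rfl⟩⟩
    _ = ⨆ i, a i := ha3
    _ ≤ f y := iSup_le h1

end Pool.Agent.BVU
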