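import Pool.Agent.BVU.Ext

/-!
# BVU module Nat: names of natural numbers and of subsets of `ω`
-/

set_option autoImplicit false

namespace Pool.Agent.BVU

open BSet

variable {B : Type} [CompleteBooleanAlgebra B]

theorem bmem_bsucc (z x : BSet B) : bmem z (bsucc x) = bmem z x ⊔ beq z x := by
  have h : bmem z (bsucc x) = ⨆ o : Option x.ty, (o.elim ⊤ x.vl) ⊓ beq z (o.elim x x.fn) := rfl
  rw [h, iSup_option]
  simp only [Option.elim_none, Option.elim_some, top_inf_eq]
  rw [sup_comm]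
  rfl

theorem not_bmem_natN_zero (z : BSet B) : bmem z (natN 0) = ⊥ := by
  have h : bmem z (natN 0) = ⨆ a : Empty, (⊥ : B) ⊓ beq z (a.elim) := rfl
  rw [h]
  exact iSup_of_empty _

theorem bmem_natN (z : BSet B) (n : ℕ) : bmem z (natN n) = ⨆ k, ⨆ (_ : k < n), beq z (natN k) := by
  induction n with
  | zero => simp [not_bmem_natN_zero]
  | succ n ih =>
    change bmem z (bsucc (natN n)) = _
    rw [bmem_bsucc, ih]
    apply le_antisymm
    · refine sup_le ?_ ?_
      · exact iSup_mono fun k => iSup_le fun hk =>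
          le_iSup (fun _ : k < n + 1 => beq z (natN k)) (Nat.lt_succ_of_lt hk)
      · exact le_iSup₂_of_le n (Nat.lt_succ_self n) le_rfl
    · refine iSup₂_le fun k hk => ?_
      rcases Nat.lt_succ_iff_lt_or_eq.1 hk with h | rfl
      · exact le_sup_of_le_left (le_iSup₂_of_le k h le_rfl)
      · exact le_sup_right

private theorem Nat_mem_of_lt {m n : ℕ} (h : m < n) : bmem (natN m : BSet B) (natN n) = ⊤ := by
  rw [bmem_natN]
  apply top_unique
  rw [← beq_refl (natN m : BSet B)]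
  exact le_iSup₂_of_le (f := fun k (_ : k < n) => beq (natN m : BSet B) (natN k)) m h le_rfl

private theorem Nat_beq_lt {m n : ℕ} (h : m < n) : beq (natN m : BSet B) (natN n) = ⊥ := by
  apply bot_unique
  have h1 : beq (natN n : BSet B) (natN m) ⊓ bmem (natN m) (natN n) ≤ bmem (natN m) (natN m) :=
    bmem_congr_right _ _ _
  rw [Nat_mem_of_lt h, bmem_self, inf_top_eq, beq_comm] at h1
  exact h1

theorem beq_natN_ne {m n : ℕ} (h : m ≠ n) : beq (natN m : BSet B) (natN n) = ⊥ := by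
  rcases lt_or_gt_of_ne h with h | h
  · exact Nat_beq_lt h
  · rw [beq_comm]
    exact Nat_beq_lt h

theorem natN_mem_of_lt {m n : ℕ} (h : m < n) : bmem (natN m : BSet B) (natN n) = ⊤ :=
  Nat_mem_of_lt h

theorem natN_mem_of_le {m n : ℕ} (h : n ≤ m) : bmem (natN m : BSet B) (natN n) = ⊥ := by
  rw [bmem_natN]
  apply bot_unique
  refine iSup₂_le fun k hk => ?_
  rw [beq_natN_ne (by omega)]

theorem bmem_subN (z : BSet B) (W : ℕ → B) : bmem z (subN W) = ⨆ n, W n ⊓ beq z (natN n) := rfl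

theorem natN_mem_subN (n : ℕ) (W : ℕ → B) : bmem (natN n) (subN W) = W n := by
  rw [bmem_subN]
  apply le_antisymm
  · refine iSup_le fun k => ?_
    by_cases h : n = k
    · subst h
      exact inf_le_left
    · rw [beq_natN_ne h, inf_bot_eq]
      exact bot_le
  · refine le_iSup_of_le n ?_
    rw [beq_refl, inf_top_eq]

theorem natN_mem_omN (n : ℕ) : bmem (natN n : BSet B) omN = ⊤ :=
  natN_mem_subN n _

theorem iSup_subN {f : BSet B → B} (hf : ExtB f) (W : ℕ → B) :
    (⨆ z, bmem z (subN W) ⊓ f z) = ⨆ n, W n ⊓ f (natN n) :=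
  iSup_bmem hf (subN W)

theorem iInf_subN {f : BSet B → B} (hf : ExtB f) (W : ℕ → B) :
    (⨅ z, bmem z (subN W) ⇨ f z) = ⨅ n, (W n ⇨ f (natN n)) :=
  iInf_bmem hf (subN W)

theorem iSup_omN {f : BSet B → B} (hf : ExtB f) : (⨆ z, bmem z omN ⊓ f z) = ⨆ n, f (natN n) := by
  have h := iSup_subN hf (fun _ => (⊤ : B))
  simp only [top_inf_eq] at h
  exact h

theorem iInf_omN {f : BSet B → B} (hf : ExtB f) : (⨅ z, bmem z omN ⇨ f z) = ⨅ n, f (natN n) := by
  have h := iInf_subN hf (fun _ => (⊤ : B))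
  simp only [top_himp] at h
  exact h

theorem beq_subN (W W' : ℕ → B) : beq (subN W) (subN W') = ⨅ n, (W n ⇨ W' n) ⊓ (W' n ⇨ W n) := by
  rw [beq_def, iInf_inf_eq]
  have h1 : (⨅ a : (subN W).ty, (subN W).vl a ⇨ bmem ((subN W).fn a) (subN W')) = ⨅ n, (W n ⇨ W' n) := by
    refine iInf_congr fun n => ?_
    exact congrArg (fun t => W n ⇨ t) (natN_mem_subN n W')
  have h2 : (⨅ a : (subN W').ty, (subN W').vl a ⇨ bmem ((subN W').fn a) (subN W)) = ⨅ n, (W' n ⇨ W n) := by
    refine iInf_congr fun n => ?_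
    exact congrArg (fun t => W' n ⇨ t) (natN_mem_subN n W)
  rw [h1, h2]

end Pool.Agent.BVU
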