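import Pool.Agent.BVU.Defs

/-!
# BVU module Uf: ultrafilters on a Boolean algebra

`exists_uf_mem`: for `c ≠ ⊥` there is an ultrafilter containing `c`: Zorn's lemma for the sets `s` which are closed under finite
infima and upward closed, contain `c` and not `⊥` (start with `{a | c ≤ a}`); a maximal one `s` satisfies `em`: if `a ∉ s`, then
the filter generated by `s` and `a`, `{x | ∃ b ∈ s, b ⊓ a ≤ x}`, is strictly larger, so it contains `⊥`: `b ⊓ a ≤ ⊥` for some
`b ∈ s`, thus `b ≤ aᶜ` and `aᶜ ∈ s`.  (Or use the prime ideal theorem of Mathlib, `Order.PrimeSeparator`.)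
The other statements are immediate.
-/

set_option autoImplicit false

namespace Pool.Agent.BVU

variable {B : Type} [BooleanAlgebra B]

theorem exists_uf_mem {c : B} (hc : c ≠ ⊥) : ∃ U : UF B, c ∈ U.s := by
  have hd : Disjoint ((Order.PFilter.principal c : Order.PFilter B) : Set B)
      ((Order.Ideal.principal (⊥ : B) : Order.Ideal B) : Set B) := by
    rw [Set.disjoint_left]
    intro x h1 h2
    have h3 : c ≤ x := h1
    have h4 : x ≤ ⊥ := h2
    exact hc (le_bot_iff.1 (h3.trans h4))
  obtain ⟨J, hJ, _, hF⟩ := DistribLattice.prime_ideal_of_disjoint_filter_ideal hd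
  have htop : (⊤ : B) ∉ J := hJ.toIsProper.top_notMem
  refine ⟨⟨{a | a ∉ J}, htop, fun h => h J.bot_mem, ?_, ?_, ?_⟩, ?_⟩
  · intro a ha b hb hab
    rcases hJ.mem_or_mem hab with h | h
    · exact ha h
    · exact hb h
  · intro a ha b hab hb
    exact ha (J.lower hab hb)
  · intro a
    by_contra hcon
    have h1 : a ∈ J := by
      by_contra h
      exact hcon (Or.inl h)
    have h2 : aᶜ ∈ J := by
      by_contra h
      exact hcon (Or.inr h)
    apply htop
    rw [← sup_compl_eq_top (x := a)]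
    exact Order.Ideal.sup_mem h1 h2
  · intro h
    exact Set.disjoint_left.1 hF (show c ∈ (Order.PFilter.principal c : Order.PFilter B) from le_refl c) h

theorem exists_uf [Nontrivial B] : Nonempty (UF B) := by
  obtain ⟨U, _⟩ := exists_uf_mem (B := B) (c := ⊤) top_ne_bot
  exact ⟨U⟩

theorem UF.compl_mem (U : UF B) {a : B} : aᶜ ∈ U.s ↔ a ∉ U.s := by
  constructor
  · intro h h'
    have h1 := U.inf a h' aᶜ h
    rw [inf_compl_eq_bot] at h1
    exact U.bot h1
  · intro h
    exact (U.em a).resolve_left h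

theorem UF.inf_mem (U : UF B) {a b : B} : a ⊓ b ∈ U.s ↔ a ∈ U.s ∧ b ∈ U.s := by
  constructor
  · intro h
    exact ⟨U.up _ h _ inf_le_left, U.up _ h _ inf_le_right⟩
  · rintro ⟨h, h'⟩
    exact U.inf a h b h'

theorem UF.sup_mem (U : UF B) {a b : B} : a ⊔ b ∈ U.s ↔ a ∈ U.s ∨ b ∈ U.s := by
  constructor
  · intro h
    by_contra hcon
    push Not at hcon
    obtain ⟨h1, h2⟩ := hcon
    have h3 := U.inf_mem.2 ⟨U.compl_mem.2 h1, U.compl_mem.2 h2⟩
    rw [← compl_sup] at h3
    exact U.compl_mem.1 h3 h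
  · rintro (h | h)
    · exact U.up _ h _ le_sup_left
    · exact U.up _ h _ le_sup_right

theorem UF.himp_mem (U : UF B) {a b : B} : a ⇨ b ∈ U.s ↔ (a ∈ U.s → b ∈ U.s) := by
  rw [himp_eq, U.sup_mem, U.compl_mem]
  constructor
  · rintro (h | h) h'
    · exact h
    · exact absurd h' h
  · intro h
    by_cases h' : a ∈ U.s
    · exact Or.inl (h h')
    · exact Or.inr h'

end Pool.Agent.BVU
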