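import Pool.Agent.BVU.Mix
import Pool.Agent.BVU.Uf

/-!
# BVU module Quot: the quotient structure and the theorem of Los

`exQ`: `←` by the maximum principle (`max_principle`): `f x = ⨆ y, f y` for some `x`; `→` by `U.up`.
`allQ`: take complements: if `⨅ x, f x ∉ U` then `⨆ x, (f x)ᶜ ∈ U`, by `exQ` (and `ExtB.compl`) some `(f x)ᶜ ∈ U`.
`los`: induction on the formula for all `v`.  `mem`: `qE_mk`; `eq`: `qmk_eq`; `neg`, `and`: `UF.compl_mem`, `UF.inf_mem`; `all`: every
`X : QN U` is `qmk U x` (`qmk_surj`) and `cons (qmk U x) (fun i => qmk U (v i)) = fun i => qmk U (cons x v i)` (cases on `i`);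
then `allQ` with `ExtB_bv`.
-/

set_option autoImplicit false

namespace Pool.Agent.BVU

open BSet

variable {B : Type} [CompleteBooleanAlgebra B]

/-- Equality modulo the ultrafilter. -/
def UF.setoid (U : UF B) : Setoid (BSet B) where
  r x y := beq x y ∈ U.s
  iseqv :=
    { refl := fun x => by rw [beq_refl]; exact U.top
      symm := fun {x y} h => by rw [beq_comm]; exact h
      trans := fun {x y z} h h' => U.up _ (U.inf _ h _ h') _ (beq_trans x y z) }

/-- The quotient of the Boolean-valued universe by an ultrafilter. -/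
def QN (U : UF B) : Type 1 := Quotient U.setoid

/-- The class of a Boolean-valued set. -/
def qmk (U : UF B) (x : BSet B) : QN U := Quotient.mk U.setoid x

/-- Membership in the quotient. -/
def qE (U : UF B) : QN U → QN U → Prop :=
  Quotient.lift₂ (fun x y => bmem x y ∈ U.s) (by
    intro x y x' y' h h'
    refine propext ⟨fun h0 => ?_, fun h0 => ?_⟩
    · have h1 := U.up _ (U.inf _ h _ h0) _ (bmem_congr_left x x' y)
      exact U.up _ (U.inf _ h' _ h1) _ (bmem_congr_right y y' x')
    · have hs : beq x' x ∈ U.s := U.setoid.symm h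
      have hs' : beq y' y ∈ U.s := U.setoid.symm h'
      have h1 := U.up _ (U.inf _ hs _ h0) _ (bmem_congr_left x' x y')
      exact U.up _ (U.inf _ hs' _ h1) _ (bmem_congr_right y' y x))

theorem qmk_surj (U : UF B) (X : QN U) : ∃ x, X = qmk U x := by
  obtain ⟨x, hx⟩ := Quotient.exists_rep X
  exact ⟨x, hx.symm⟩

theorem qmk_eq (U : UF B) {x y : BSet B} : qmk U x = qmk U y ↔ beq x y ∈ U.s := by
  exact Quotient.eq (r := U.setoid)

theorem qE_mk (U : UF B) {x y : BSet B} : qE U (qmk U x) (qmk U y) ↔ bmem x y ∈ U.s := by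
  exact Iff.rfl

theorem exQ (U : UF B) {f : BSet B → B} (hf : ExtB f) : (∃ x, f x ∈ U.s) ↔ (⨆ x, f x) ∈ U.s := by
  constructor
  · rintro ⟨x, hx⟩
    exact U.up _ hx _ (le_iSup f x)
  · intro h
    obtain ⟨x, hx⟩ := max_principle hf
    exact ⟨x, by rw [hx]; exact h⟩

theorem allQ (U : UF B) {f : BSet B → B} (hf : ExtB f) : (∀ x, f x ∈ U.s) ↔ (⨅ x, f x) ∈ U.s := by
  constructor
  · intro h
    by_contra hc
    rw [← UF.compl_mem, compl_iInf, ← exQ U hf.compl] at hc
    obtain ⟨x, hx⟩ := hc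
    exact (UF.compl_mem U).1 hx (h x)
  · intro h x
    exact U.up _ h _ (iInf_le f x)

theorem los (U : UF B) (φ : Fm) (v : ℕ → BSet B) :
    Sat (qE U) φ (fun i => qmk U (v i)) ↔ bv φ v ∈ U.s := by
  induction φ generalizing v with
  | mem i j => exact qE_mk U
  | eq i j => exact qmk_eq U
  | neg φ ih =>
    change ¬ Sat (qE U) φ (fun i => qmk U (v i)) ↔ (bv φ v)ᶜ ∈ U.s
    rw [UF.compl_mem, ih]
  | and φ ψ ih ih' =>
    change (Sat (qE U) φ (fun i => qmk U (v i)) ∧ Sat (qE U) ψ (fun i => qmk U (v i))) ↔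
      bv φ v ⊓ bv ψ v ∈ U.s
    rw [UF.inf_mem, ih, ih']
  | all φ ih =>
    change (∀ X, Sat (qE U) φ (cons X fun i => qmk U (v i))) ↔ (⨅ x, bv φ (cons x v)) ∈ U.s
    rw [← allQ U (ExtB_bv φ v)]
    have hc : ∀ x, cons (qmk U x) (fun i => qmk U (v i)) = fun i => qmk U (cons x v i) := by
      intro x
      funext i
      cases i <;> rfl
    constructor
    · intro h x
      rw [← ih, ← hc]
      exact h _
    · intro h X
      obtain ⟨x, rfl⟩ := qmk_surj U X
      rw [hc, ih]
      exact h x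

end Pool.Agent.BVU
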