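import Pool.Agent.BVU.Quot

/-!
# BVU module Rep: translating statements about the quotient into truth values

`Rep U R f`: the property `R` of assignments of the quotient is given by a formula whose truth value is `f`.
All closure lemmas: combine the formulas (`or`, `imp`, `iff`, `ex` are abbreviations by `neg`, `and`, `all`; the Boolean identities
`(aᶜ ⊓ bᶜ)ᶜ = a ⊔ b`, `(a ⊓ bᶜ)ᶜ = a ⇨ b`, `(⨅ x, (f x)ᶜ)ᶜ = ⨆ x, f x`).
`Rep.iff_mem`: `los`.  `Rep.ext`: `bv_congr`.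

HOW TO USE (example):  `Rep U (fun v => ∀ z, qE U z (v i) → qE U z (v j)) (fun v => ⨅ z, (bmem z (v i) ⇨ bmem z (v j)))` is proved by
`Rep.all (Rep.imp (Rep.mem 0 (i + 1)) (Rep.mem 0 (j + 1)))` (perhaps with `exact`/`refine` and explicit `R`, `f`): under a
quantifier the bound variable is number `0` and the old variables are shifted by one; `cons x v (i + 1)` reduces to `v i`.
-/

set_option autoImplicit false

namespace Pool.Agent.BVU

open BSet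

variable {B : Type} [CompleteBooleanAlgebra B]

/-- `R` is given by a formula with truth value `f`. -/
def Rep (U : UF B) (R : (ℕ → QN U) → Prop) (f : (ℕ → BSet B) → B) : Prop :=
  ∃ φ : Fm, (∀ v, R v ↔ Sat (qE U) φ v) ∧ ∀ v, f v = bv φ v

theorem Rep.iff_mem {U : UF B} {R : (ℕ → QN U) → Prop} {f : (ℕ → BSet B) → B} (h : Rep U R f) (v : ℕ → BSet B) :
    R (fun i => qmk U (v i)) ↔ f v ∈ U.s := by
  obtain ⟨φ, h1, h2⟩ := h
  rw [h1, h2]
  exact los U φ v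

theorem Rep.ext {U : UF B} {R : (ℕ → QN U) → Prop} {f : (ℕ → BSet B) → B} (h : Rep U R f) (v w : ℕ → BSet B) :
    (⨅ i, beq (v i) (w i)) ⊓ f v ≤ f w := by
  obtain ⟨φ, h1, h2⟩ := h
  rw [h2 v, h2 w]
  exact bv_congr φ v w

theorem Rep.extB {U : UF B} {R : (ℕ → QN U) → Prop} {f : (ℕ → BSet B) → B} (h : Rep U R f) (v : ℕ → BSet B) :
    ExtB (fun x => f (cons x v)) := by
  obtain ⟨φ, h1, h2⟩ := h
  intro x y
  show beq x y ⊓ f (cons x v) ≤ f (cons y v)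
  rw [h2, h2]
  exact ExtB_bv φ v x y

theorem Rep.congr {U : UF B} {R R' : (ℕ → QN U) → Prop} {f f' : (ℕ → BSet B) → B} (h : Rep U R f)
    (e : ∀ v, R' v ↔ R v) (e' : ∀ v, f' v = f v) : Rep U R' f' := by
  obtain ⟨φ, h1, h2⟩ := h
  exact ⟨φ, fun v => (e v).trans (h1 v), fun v => (e' v).trans (h2 v)⟩

theorem Rep.mem (U : UF B) (i j : ℕ) : Rep U (fun v => qE U (v i) (v j)) (fun v => bmem (v i) (v j)) :=
  ⟨.mem i j, fun _ => Iff.rfl, fun _ => rfl⟩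

theorem Rep.eq (U : UF B) (i j : ℕ) : Rep U (fun v => v i = v j) (fun v => beq (v i) (v j)) :=
  ⟨.eq i j, fun _ => Iff.rfl, fun _ => rfl⟩

theorem Rep.not {U : UF B} {R : (ℕ → QN U) → Prop} {f : (ℕ → BSet B) → B} (h : Rep U R f) :
    Rep U (fun v => ¬ R v) (fun v => (f v)ᶜ) := by
  obtain ⟨φ, h1, h2⟩ := h
  exact ⟨.neg φ, fun v => not_congr (h1 v), fun v => congrArg compl (h2 v)⟩

theorem Rep.and {U : UF B} {R R' : (ℕ → QN U) → Prop} {f f' : (ℕ → BSet B) → B} (h : Rep U R f) (h' : Rep U R' f') :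
    Rep U (fun v => R v ∧ R' v) (fun v => f v ⊓ f' v) := by
  obtain ⟨φ, h1, h2⟩ := h
  obtain ⟨ψ, h3, h4⟩ := h'
  exact ⟨.and φ ψ, fun v => and_congr (h1 v) (h3 v), fun v => congrArg₂ (· ⊓ ·) (h2 v) (h4 v)⟩

theorem Rep.or {U : UF B} {R R' : (ℕ → QN U) → Prop} {f f' : (ℕ → BSet B) → B} (h : Rep U R f) (h' : Rep U R' f') :
    Rep U (fun v => R v ∨ R' v) (fun v => f v ⊔ f' v) := by
  refine Rep.congr (Rep.not (Rep.and (Rep.not h) (Rep.not h'))) (fun v => ?_) (fun v => ?_)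
  · show (R v ∨ R' v) ↔ ¬ (¬ R v ∧ ¬ R' v)
    tauto
  · show f v ⊔ f' v = ((f v)ᶜ ⊓ (f' v)ᶜ)ᶜ
    rw [compl_inf, compl_compl, compl_compl]

theorem Rep.imp {U : UF B} {R R' : (ℕ → QN U) → Prop} {f f' : (ℕ → BSet B) → B} (h : Rep U R f) (h' : Rep U R' f') :
    Rep U (fun v => R v → R' v) (fun v => f v ⇨ f' v) := by
  refine Rep.congr (Rep.not (Rep.and h (Rep.not h'))) (fun v => ?_) (fun v => ?_)
  · show (R v → R' v) ↔ ¬ (R v ∧ ¬ R' v)
    tauto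
  · show (f v ⇨ f' v) = (f v ⊓ (f' v)ᶜ)ᶜ
    rw [compl_inf, compl_compl, himp_eq, sup_comm]

theorem Rep.iff {U : UF B} {R R' : (ℕ → QN U) → Prop} {f f' : (ℕ → BSet B) → B} (h : Rep U R f) (h' : Rep U R' f') :
    Rep U (fun v => (R v ↔ R' v)) (fun v => (f v ⇨ f' v) ⊓ (f' v ⇨ f v)) := by
  refine Rep.congr (Rep.and (Rep.imp h h') (Rep.imp h' h)) (fun v => ?_) (fun v => rfl)
  exact ⟨fun e => ⟨e.1, e.2⟩, fun e => ⟨e.1, e.2⟩⟩

theorem Rep.all {U : UF B} {R : (ℕ → QN U) → Prop} {f : (ℕ → BSet B) → B} (h : Rep U R f) :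
    Rep U (fun v => ∀ x, R (cons x v)) (fun v => ⨅ x, f (cons x v)) := by
  obtain ⟨φ, h1, h2⟩ := h
  exact ⟨.all φ, fun v => forall_congr' fun x => h1 (cons x v),
    fun v => iInf_congr fun x => h2 (cons x v)⟩

theorem Rep.ex {U : UF B} {R : (ℕ → QN U) → Prop} {f : (ℕ → BSet B) → B} (h : Rep U R f) :
    Rep U (fun v => ∃ x, R (cons x v)) (fun v => ⨆ x, f (cons x v)) := by
  refine Rep.congr (Rep.not (Rep.all (Rep.not h))) (fun v => ?_) (fun v => ?_)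
  · show (∃ x, R (cons x v)) ↔ ¬ ∀ x, ¬ R (cons x v)
    exact not_forall_not.symm
  · show (⨆ x, f (cons x v)) = (⨅ x, (f (cons x v))ᶜ)ᶜ
    rw [compl_iInf]
    simp only [compl_compl]

end Pool.Agent.BVU
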