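import Pool.Agent.BVU.Quot
import Pool.Agent.BVU.Ax2
import Pool.Agent.BVU.Ax3
import Pool.Agent.BVU.Nat

/-!
# BVU module Zfc: the quotient of the Boolean-valued universe by an ultrafilter is a model of ZFC

Every element of `QN U` is some `qmk U x` (`qmk_surj`).  A statement `∃ X : QN U, …` is `∃ x, …` for representatives; statements
about representatives are translated by `qE_mk`, `qmk_eq`, `UF.inf_mem`, `UF.himp_mem`, `UF.compl_mem`, `UF.sup_mem`, `exQ`, `allQ` (the `ExtB`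
side conditions by the closure lemmas of module Ext).
`ext`: the hypothesis gives `bmem z x ⇨ bmem z y ∈ U` for all `z`, so the infimum is in `U` by `allQ`; same with `x, y` exchanged;
then `beq_ext`.
`found`: `found_bv`; the hypothesis gives `⨆ y, bmem y x ∈ U` and `exQ` applied to the right side gives `y`.
`pair`, `union`, `power`, `sep`: take `z` of `pair_bv`, `union_bv`, `power_bv`, `sep_bv` (for `sep` with `f w := bv φ (cons w v)` where the
assignment is represented by `v : ℕ → BSet B`, `ExtB_bv`, and `los` after rewriting `cons (qmk U w) (fun i => qmk U (v i))` as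
`fun i => qmk U (cons w v i)`).
`inf`: `z := omN`; empty set: `natN 0`; for `x ∈ omN` the successor: `bmem x omN = ⨆ n, beq x (natN n) ∈ U`; the set `bsucc x` satisfies the
defining property by `bmem_bsucc`, and `bmem x omN ≤ bmem (bsucc x) omN`: because `beq x (natN n) ≤ beq (bsucc x) (natN (n+1))` (by
`beq_ext` and `bmem_bsucc`).
`repl`: let `f a b := bv φ (cons a (cons b v))`; the hypothesis `∃!` for all `a ∈ x` gives that the uniqueness value of `repl_bv` is in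
`U` (`allQ` three times); take `z` of `repl_bv`.
`choice`: `choice_bv`; the disjointness hypothesis gives that the value `u` is in `U` (if `y ≠ y'` then no common element;
equivalently: if there is a common element then `y = y'`).
-/

set_option autoImplicit false

namespace Pool.Agent.BVU

open BSet

variable {B : Type} [CompleteBooleanAlgebra B]

theorem zfc_ext (U : UF B) : ∀ x y : QN U, (∀ z, qE U z x ↔ qE U z y) → x = y := by
  intro X Y h
  obtain ⟨x, rfl⟩ := qmk_surj U X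
  obtain ⟨y, rfl⟩ := qmk_surj U Y
  rw [qmk_eq, beq_ext, UF.inf_mem, ← allQ U (ExtB.himp (ExtB.mem_left x) (ExtB.mem_left y)),
    ← allQ U (ExtB.himp (ExtB.mem_left y) (ExtB.mem_left x))]
  exact ⟨fun z => (UF.himp_mem U).2 fun hz => (qE_mk U).1 ((h (qmk U z)).1 ((qE_mk U).2 hz)),
    fun z => (UF.himp_mem U).2 fun hz => (qE_mk U).1 ((h (qmk U z)).2 ((qE_mk U).2 hz))⟩

theorem zfc_found (U : UF B) : ∀ x : QN U, (∃ y, qE U y x) → ∃ y, qE U y x ∧ ∀ z, qE U z y → ¬ qE U z x := by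
  rintro X ⟨Y, hY⟩
  obtain ⟨x, rfl⟩ := qmk_surj U X
  obtain ⟨y, rfl⟩ := qmk_surj U Y
  rw [qE_mk] at hY
  have h1 : (⨆ y, bmem y x) ∈ U.s := U.up _ hY _ (le_iSup (fun y => bmem y x) y)
  have h2 := U.up _ h1 _ (found_bv x)
  have hf : ∀ y : BSet B, ExtB (fun y : BSet B => ⨅ z, (bmem z y ⇨ (bmem z x)ᶜ)) := fun _ =>
    ExtB.iInf fun z => ExtB.himp (ExtB.mem_right z) (ExtB.const _)
  rw [← exQ U (ExtB.inf (ExtB.mem_left x) (hf x))] at h2
  obtain ⟨y', hy'⟩ := h2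
  rw [UF.inf_mem] at hy'
  refine ⟨qmk U y', (qE_mk U).2 hy'.1, fun Z hZ hZ' => ?_⟩
  obtain ⟨z, rfl⟩ := qmk_surj U Z
  rw [qE_mk] at hZ hZ'
  have h3 := U.up _ hy'.2 _ (iInf_le (fun z => (bmem z y' ⇨ (bmem z x)ᶜ)) z)
  rw [UF.himp_mem, UF.compl_mem] at h3
  exact h3 hZ hZ'

theorem zfc_pair (U : UF B) : ∀ x y : QN U, ∃ z, ∀ w, qE U w z ↔ w = x ∨ w = y := by
  intro X Y
  obtain ⟨x, rfl⟩ := qmk_surj U X
  obtain ⟨y, rfl⟩ := qmk_surj U Y
  obtain ⟨z, hz⟩ := pair_bv x y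
  refine ⟨qmk U z, fun W => ?_⟩
  obtain ⟨w, rfl⟩ := qmk_surj U W
  rw [qE_mk, hz, UF.sup_mem, qmk_eq, qmk_eq]

theorem zfc_union (U : UF B) : ∀ x : QN U, ∃ z, ∀ w, qE U w z ↔ ∃ y, qE U y x ∧ qE U w y := by
  intro X
  obtain ⟨x, rfl⟩ := qmk_surj U X
  obtain ⟨z, hz⟩ := union_bv x
  refine ⟨qmk U z, fun W => ?_⟩
  obtain ⟨w, rfl⟩ := qmk_surj U W
  rw [qE_mk, hz, ← exQ U (ExtB.inf (ExtB.mem_left x) (ExtB.mem_right w))]
  constructor
  · rintro ⟨y, hy⟩
    rw [UF.inf_mem] at hy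
    exact ⟨qmk U y, (qE_mk U).2 hy.1, (qE_mk U).2 hy.2⟩
  · rintro ⟨Y, hY⟩
    obtain ⟨y, rfl⟩ := qmk_surj U Y
    exact ⟨y, (UF.inf_mem U).2 ⟨(qE_mk U).1 hY.1, (qE_mk U).1 hY.2⟩⟩

theorem zfc_power (U : UF B) : ∀ x : QN U, ∃ z, ∀ w, qE U w z ↔ ∀ u, qE U u w → qE U u x := by
  intro X
  obtain ⟨x, rfl⟩ := qmk_surj U X
  obtain ⟨z, hz⟩ := power_bv x
  refine ⟨qmk U z, fun W => ?_⟩
  obtain ⟨w, rfl⟩ := qmk_surj U W
  rw [qE_mk, hz, ← allQ U (ExtB.himp (ExtB.mem_left w) (ExtB.mem_left x))]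
  constructor
  · intro h V hV
    obtain ⟨v, rfl⟩ := qmk_surj U V
    exact (qE_mk U).2 ((UF.himp_mem U).1 (h v) ((qE_mk U).1 hV))
  · intro h v
    exact (UF.himp_mem U).2 fun hv => (qE_mk U).1 (h _ ((qE_mk U).2 hv))

private theorem Zfc_cons (U : UF B) (x : BSet B) (v : ℕ → BSet B) :
    cons (qmk U x) (fun i => qmk U (v i)) = fun i => qmk U (cons x v i) := by
  funext i
  cases i <;> rfl

theorem zfc_sep (U : UF B) : ∀ (φ : Fm) (v : ℕ → QN U) (x : QN U),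
    ∃ z, ∀ w, qE U w z ↔ qE U w x ∧ Sat (qE U) φ (cons w v) := by
  intro φ V X
  choose v hv using fun i => qmk_surj U (V i)
  obtain rfl : V = fun i => qmk U (v i) := funext hv
  obtain ⟨x, rfl⟩ := qmk_surj U X
  obtain ⟨z, hz⟩ := sep_bv (ExtB_bv φ v) x
  refine ⟨qmk U z, fun W => ?_⟩
  obtain ⟨w, rfl⟩ := qmk_surj U W
  rw [qE_mk, hz, UF.inf_mem, Zfc_cons, los, qE_mk]

end Pool.Agent.BVU
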