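import Pool.Agent.BVU.Zfc

/-!
# BVU module Zfd: the quotient is a model of ZFC, second half

See the explanations in module Zfc (infinity, replacement, choice) and assemble the structure.
-/

set_option autoImplicit false

namespace Pool.Agent.BVU

open BSet

variable {B : Type} [CompleteBooleanAlgebra B]

private theorem Zfd_succ (x y : BSet B) : beq x y ≤ beq (bsucc x) (bsucc y) := by
  have key : ∀ x y z : BSet B, beq x y ⊓ bmem z (bsucc x) ≤ bmem z (bsucc y) := by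
    intro x y z
    rw [bmem_bsucc, bmem_bsucc, inf_sup_left]
    exact sup_le_sup (bmem_congr_right x y z) (ExtB.eq_right z x y)
  rw [beq_ext (bsucc x) (bsucc y)]
  refine le_inf (le_iInf fun z => le_himp_iff.2 (key x y z)) (le_iInf fun z => le_himp_iff.2 ?_)
  rw [beq_comm x y]
  exact key y x z

private theorem Zfd_cons (U : UF B) (x y : BSet B) (v : ℕ → BSet B) :
    cons (qmk U x) (cons (qmk U y) (fun i => qmk U (v i))) = fun i => qmk U (cons x (cons y v) i) := by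
  funext i
  rcases i with _ | _ | i <;> rfl

theorem zfc_inf (U : UF B) : ∃ z : QN U, (∃ e, qE U e z ∧ ∀ w, ¬ qE U w e) ∧
    ∀ x, qE U x z → ∃ s, qE U s z ∧ ∀ w, qE U w s ↔ qE U w x ∨ w = x := by
  refine ⟨qmk U omN, ⟨qmk U (natN 0), ?_, fun W => ?_⟩, fun X hX => ?_⟩
  · rw [qE_mk, natN_mem_omN]
    exact U.top
  · obtain ⟨w, rfl⟩ := qmk_surj U W
    rw [qE_mk, not_bmem_natN_zero]
    exact U.bot
  · obtain ⟨x, rfl⟩ := qmk_surj U X
    rw [qE_mk] at hX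
    refine ⟨qmk U (bsucc x), ?_, fun W => ?_⟩
    · rw [qE_mk]
      refine U.up _ hX _ ?_
      change bmem x (subN fun _ => ⊤) ≤ bmem (bsucc x) (subN fun _ => ⊤)
      rw [bmem_subN, bmem_subN]
      refine iSup_le fun n => le_trans ?_ (le_iSup (fun n => (⊤ : B) ⊓ beq (bsucc x) (natN n)) (n + 1))
      exact inf_le_inf_left _ (Zfd_succ x (natN n))
    · obtain ⟨w, rfl⟩ := qmk_surj U W
      rw [qE_mk, bmem_bsucc, UF.sup_mem, qE_mk, qmk_eq]

theorem zfc_repl (U : UF B) : ∀ (φ : Fm) (v : ℕ → QN U) (x : QN U),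
    (∀ a, qE U a x → ∃! b, Sat (qE U) φ (cons a (cons b v))) →
    ∃ z, ∀ b, qE U b z ↔ ∃ a, qE U a x ∧ Sat (qE U) φ (cons a (cons b v)) := by
  intro φ V X h
  choose v hv using fun i => qmk_surj U (V i)
  obtain rfl : V = fun i => qmk U (v i) := funext hv
  obtain ⟨x, rfl⟩ := qmk_surj U X
  have hf : ∀ b : BSet B, ExtB (fun a => bv φ (cons a (cons b v))) := fun b => ExtB_bv φ (cons b v)
  have hf' : ∀ a : BSet B, ExtB (fun b => bv φ (cons a (cons b v))) := fun a => ExtB_bv' φ a v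
  have hS : ∀ a b : BSet B, Sat (qE U) φ (cons (qmk U a) (cons (qmk U b) fun i => qmk U (v i))) ↔
      bv φ (cons a (cons b v)) ∈ U.s := by
    intro a b
    rw [Zfd_cons, los]
  obtain ⟨z, hz⟩ := repl_bv (f := fun a b => bv φ (cons a (cons b v))) hf hf' x
  have hu : (⨅ a, bmem a x ⇨ ⨅ b, ⨅ b', (bv φ (cons a (cons b v)) ⊓ bv φ (cons a (cons b' v)) ⇨ beq b b')) ∈
      U.s := by
    rw [← allQ U (ExtB.himp (ExtB.mem_left x) (ExtB.iInf fun b => ExtB.iInf fun b' =>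
      ExtB.himp (ExtB.inf (hf b) (hf b')) (ExtB.const _)))]
    intro a
    rw [UF.himp_mem]
    intro ha
    obtain ⟨c, hc, hc'⟩ := h (qmk U a) ((qE_mk U).2 ha)
    rw [← allQ U (ExtB.iInf fun b' => ExtB.himp (ExtB.inf (hf' a) (ExtB.const _)) (ExtB.eq_left b'))]
    intro b
    rw [← allQ U (ExtB.himp (ExtB.inf (ExtB.const _) (hf' a)) (ExtB.eq_right b))]
    intro b'
    rw [UF.himp_mem, UF.inf_mem]
    rintro ⟨h1, h2⟩
    have h3 := hc' (qmk U b) ((hS a b).2 h1)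
    have h4 := hc' (qmk U b') ((hS a b').2 h2)
    exact (qmk_eq U).1 (h3.trans h4.symm)
  refine ⟨qmk U z, fun W => ?_⟩
  obtain ⟨b, rfl⟩ := qmk_surj U W
  rw [qE_mk]
  constructor
  · intro hb
    have h1 := U.up _ hb _ (hz b).1
    rw [← exQ U (ExtB.inf (ExtB.mem_left x) (hf b))] at h1
    obtain ⟨a, ha⟩ := h1
    rw [UF.inf_mem] at ha
    exact ⟨qmk U a, (qE_mk U).2 ha.1, (hS a b).2 ha.2⟩
  · rintro ⟨A, hA, hA'⟩
    obtain ⟨a, rfl⟩ := qmk_surj U A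
    refine U.up _ (U.inf _ hu _ ?_) _ (hz b).2
    rw [← exQ U (ExtB.inf (ExtB.mem_left x) (hf b))]
    exact ⟨a, (UF.inf_mem U).2 ⟨(qE_mk U).1 hA, (hS a b).1 hA'⟩⟩

theorem zfc_choice (U : UF B) : ∀ x : QN U, (∀ y, qE U y x → ∃ z, qE U z y) →
    (∀ y y', qE U y x → qE U y' x → y ≠ y' → ∀ z, ¬ (qE U z y ∧ qE U z y')) →
    ∃ c, ∀ y, qE U y x → ∃! z, qE U z y ∧ qE U z c := by
  intro X hne hdis
  obtain ⟨x, rfl⟩ := qmk_surj U X
  obtain ⟨c, hc1, hc2⟩ := choice_bv x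
  have hu : (⨅ y, ⨅ y', (bmem y x ⊓ bmem y' x ⊓ (⨆ z, bmem z y ⊓ bmem z y') ⇨ beq y y')) ∈ U.s := by
    rw [← allQ U (ExtB.iInf fun y' => ExtB.himp (ExtB.inf (ExtB.inf (ExtB.mem_left x) (ExtB.const _))
      (ExtB.iSup fun z => ExtB.inf (ExtB.mem_right z) (ExtB.const _))) (ExtB.eq_left y'))]
    intro y
    rw [← allQ U (ExtB.himp (ExtB.inf (ExtB.inf (ExtB.const _) (ExtB.mem_left x))
      (ExtB.iSup fun z => ExtB.inf (ExtB.const _) (ExtB.mem_right z))) (ExtB.eq_right y))]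
    intro y'
    rw [UF.himp_mem, UF.inf_mem, UF.inf_mem]
    rintro ⟨⟨h1, h2⟩, h3⟩
    rw [← exQ U (ExtB.inf (ExtB.mem_left y) (ExtB.mem_left y'))] at h3
    obtain ⟨z, hz⟩ := h3
    rw [UF.inf_mem] at hz
    by_contra hcon
    exact hdis (qmk U y) (qmk U y') ((qE_mk U).2 h1) ((qE_mk U).2 h2)
      (fun h => hcon ((qmk_eq U).1 h)) (qmk U z) ⟨(qE_mk U).2 hz.1, (qE_mk U).2 hz.2⟩
  refine ⟨qmk U c, fun Y hY => ?_⟩
  obtain ⟨y, rfl⟩ := qmk_surj U Y
  obtain ⟨Z, hZ⟩ := hne _ hY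
  obtain ⟨z, rfl⟩ := qmk_surj U Z
  rw [qE_mk] at hY hZ
  have h1 : (⨆ z, bmem z y) ∈ U.s := U.up _ hZ _ (le_iSup (fun z => bmem z y) z)
  have h2 := U.up _ (U.inf _ hY _ h1) _ (hc1 y)
  rw [← exQ U (ExtB.inf (ExtB.mem_left y) (ExtB.mem_left c))] at h2
  obtain ⟨t, ht⟩ := h2
  refine ⟨qmk U t, ?_, ?_⟩
  · rw [UF.inf_mem] at ht
    exact ⟨(qE_mk U).2 ht.1, (qE_mk U).2 ht.2⟩
  · rintro S ⟨hS1, hS2⟩
    obtain ⟨s, rfl⟩ := qmk_surj U S
    rw [qmk_eq]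
    exact U.up _ (U.inf _ (U.inf _ (U.inf _ hu _ hY) _
      ((UF.inf_mem U).2 ⟨(qE_mk U).1 hS1, (qE_mk U).1 hS2⟩)) _ ht) _ (hc2 y s t)

/-- The quotient of the Boolean-valued universe by an ultrafilter is a model of ZFC. -/
theorem zfc_q (U : UF B) : ZFC (qE U) where
  ext := zfc_ext U
  found := zfc_found U
  pair := zfc_pair U
  union := zfc_union U
  power := zfc_power U
  inf := zfc_inf U
  sep := zfc_sep U
  repl := zfc_repl U
  choice := zfc_choice U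

end Pool.Agent.BVU
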